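import Mathlib

set_option autoImplicit false

open Complex Set MeasureTheory
open scoped Interval

namespace Pool.Agent.BallAlg

/-- The one-dimensional integration by parts identity. -/
lemma oneD_identity {g P L A B Q : ℝ → ℂ} {c d : ℂ}
    (hg : ∀ x ∈ Icc (0:ℝ) 1, HasDerivAt g (-4 * (x:ℂ) ^ 3 * P x) x)
    (hP : ∀ x ∈ Icc (0:ℝ) 1, HasDerivAt P (-4 * (x:ℂ) ^ 3 * A x) x)
    (hL : ∀ x ∈ Icc (0:ℝ) 1, HasDerivAt L (-4 * (x:ℂ) ^ 3 * B x) x)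
    (hA : ContinuousOn A (Icc 0 1)) (hB : ContinuousOn B (Icc 0 1)) (hQ : ContinuousOn Q (Icc 0 1)) :
    ∫ x in (0:ℝ)..1, (280 * g x + (8 * (x:ℂ) ^ 3 + 2240 * (x:ℂ) ^ 4) * (c * P x + d * L x)
        + (4 * (x:ℂ) ^ 7 + 896 * (x:ℂ) ^ 8) * (c ^ 2 * A x + 2 * c * d * B x + d ^ 2 * Q x))
      = (2 * c + c ^ 2) * g 0
        - ((2 * c + c ^ 2) * g 1 + c ^ 2 * P 1 + 2 * c * d * L 1
          + 280 * ((2 * c + c ^ 2) * g 1 + 4 / 5 * c ^ 2 * P 1 + 8 / 5 * c * d * L 1))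
        + 280 * (1 + c) ^ 2 * (∫ x in (0:ℝ)..1, g x)
        + ∫ x in (0:ℝ)..1, (d * (1 + c) * (8 * (x:ℂ) ^ 3 + 2240 * (x:ℂ) ^ 4) * L x
            + d ^ 2 * (4 * (x:ℂ) ^ 7 + 896 * (x:ℂ) ^ 8) * Q x) := by
  have hgc : ContinuousOn g (Icc 0 1) := fun x hx => (hg x hx).continuousAt.continuousWithinAt
  have hPc : ContinuousOn P (Icc 0 1) := fun x hx => (hP x hx).continuousAt.continuousWithinAt
  have hLc : ContinuousOn L (Icc 0 1) := fun x hx => (hL x hx).continuousAt.continuousWithinAt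
  set Ψ : ℝ → ℂ := fun x => -2 * c * g x - c ^ 2 * ((x:ℂ) ^ 4 * P x + g x)
    - 2 * c * d * ((x:ℂ) ^ 4 * L x)
    + 280 * (-(2 * c + c ^ 2) * ((x:ℂ) * g x) - 4 / 5 * c ^ 2 * ((x:ℂ) ^ 5 * P x)
      - 8 / 5 * c * d * ((x:ℂ) ^ 5 * L x)) with hΨ
  set ψ : ℝ → ℂ := fun x => 8 * c * (x:ℂ) ^ 3 * P x + 4 * c ^ 2 * (x:ℂ) ^ 7 * A x
    + 8 * c * d * (x:ℂ) ^ 7 * B x - 8 * c * d * (x:ℂ) ^ 3 * L x
    + 280 * (-(2 * c + c ^ 2) * g x + 8 * c * (x:ℂ) ^ 4 * P x + 16 / 5 * c ^ 2 * (x:ℂ) ^ 8 * A x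
      + 32 / 5 * c * d * (x:ℂ) ^ 8 * B x - 8 * c * d * (x:ℂ) ^ 4 * L x) with hψ
  have hderiv : ∀ x ∈ Icc (0:ℝ) 1, HasDerivAt Ψ (ψ x) x := by
    intro x hx
    have h0 : HasDerivAt (fun y : ℝ => (y:ℂ)) 1 x := (hasDerivAt_id x).ofReal_comp
    have h4 : HasDerivAt (fun y : ℝ => (y:ℂ) ^ 4) (4 * (x:ℂ) ^ 3) x :=
      (h0.fun_pow 4).congr_deriv (by push_cast; ring)
    have h5 : HasDerivAt (fun y : ℝ => (y:ℂ) ^ 5) (5 * (x:ℂ) ^ 4) x :=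
      (h0.fun_pow 5).congr_deriv (by push_cast; ring)
    have H := ((((hg x hx).const_mul (-2 * c)).sub (((h4.mul (hP x hx)).add (hg x hx)).const_mul (c ^ 2))).sub
      ((h4.mul (hL x hx)).const_mul (2 * c * d))).add
      (((((h0.mul (hg x hx)).const_mul (-(2 * c + c ^ 2))).sub ((h5.mul (hP x hx)).const_mul (4 / 5 * c ^ 2))).sub
        ((h5.mul (hL x hx)).const_mul (8 / 5 * c * d))).const_mul 280)
    refine H.congr_deriv ?_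
    simp only [hψ]
    ring
  have hψc : ContinuousOn ψ (Icc 0 1) := by
    simp only [hψ]
    fun_prop
  have hFTC : ∫ x in (0:ℝ)..1, ψ x = Ψ 1 - Ψ 0 := by
    apply intervalIntegral.integral_eq_sub_of_hasDerivAt
    · intro x hx
      rw [uIcc_of_le zero_le_one] at hx
      exact hderiv x hx
    · apply ContinuousOn.intervalIntegrable
      rwa [uIcc_of_le zero_le_one]
  have hint1 : IntervalIntegrable ψ volume 0 1 := by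
    apply ContinuousOn.intervalIntegrable
    rwa [uIcc_of_le zero_le_one]
  have hint2 : IntervalIntegrable (fun x => 280 * (1 + c) ^ 2 * g x) volume 0 1 := by
    apply ContinuousOn.intervalIntegrable
    rw [uIcc_of_le zero_le_one]
    fun_prop
  have hint3 : IntervalIntegrable (fun x : ℝ => d * (1 + c) * (8 * (x:ℂ) ^ 3 + 2240 * (x:ℂ) ^ 4) * L x
            + d ^ 2 * (4 * (x:ℂ) ^ 7 + 896 * (x:ℂ) ^ 8) * Q x) volume 0 1 := by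
    apply ContinuousOn.intervalIntegrable
    rw [uIcc_of_le zero_le_one]
    fun_prop
  have hsplit : (fun x : ℝ => 280 * g x + (8 * (x:ℂ) ^ 3 + 2240 * (x:ℂ) ^ 4) * (c * P x + d * L x)
        + (4 * (x:ℂ) ^ 7 + 896 * (x:ℂ) ^ 8) * (c ^ 2 * A x + 2 * c * d * B x + d ^ 2 * Q x))
      = fun x : ℝ => (ψ x + 280 * (1 + c) ^ 2 * g x)
        + (d * (1 + c) * (8 * (x:ℂ) ^ 3 + 2240 * (x:ℂ) ^ 4) * L x
            + d ^ 2 * (4 * (x:ℂ) ^ 7 + 896 * (x:ℂ) ^ 8) * Q x) := by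
    funext x
    simp only [hψ]
    ring
  rw [hsplit, intervalIntegral.integral_add (hint1.add hint2) hint3,
    intervalIntegral.integral_add hint1 hint2, hFTC, intervalIntegral.integral_const_mul]
  simp only [hΨ]
  push_cast
  ring

lemma pointwise_bound {a w x u l q : ℝ} (ha : 0 ≤ a) (hw : 0 ≤ w) (hw2 : w ≤ 2)
    (haw : a ^ 2 ≤ 2 * w) (hx : 0 ≤ x) (hx1 : x ≤ 1) (hu : 0 ≤ u) (hq0 : 0 ≤ q)
    (hl : x ^ 2 * l ≤ 2 * u) (hq : x ^ 4 * q ≤ 48 * u) :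
    a * w * (8 * x ^ 3 + 2240 * x ^ 4) * l + a ^ 2 * (4 * x ^ 7 + 896 * x ^ 8) * q
      ≤ 243 * w ^ 2 * u + 745672 * (x ^ 4 * u) := by
  have h1 : a * w * (8 * x ^ 3 + 2240 * x ^ 4) * l ≤ a * w * (8 * x + 2240 * x ^ 2) * (2 * u) := by
    have e : a * w * (8 * x ^ 3 + 2240 * x ^ 4) * l = a * w * (8 * x + 2240 * x ^ 2) * (x ^ 2 * l) := by
      ring
    rw [e]
    gcongr
  have h2 : a ^ 2 * (4 * x ^ 7 + 896 * x ^ 8) * q ≤ 2 * w * (4 * x ^ 3 + 896 * x ^ 4) * (48 * u) := by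
    have e : a ^ 2 * (4 * x ^ 7 + 896 * x ^ 8) * q = a ^ 2 * (4 * x ^ 3 + 896 * x ^ 4) * (x ^ 4 * q) := by
      ring
    rw [e]
    gcongr
  have h3 : a * w * x ≤ w ^ 2 + 1 / 2 * x ^ 4 := by
    have e1 : a * w * x ≤ 1 / 2 * (w ^ 2 + a ^ 2 * x ^ 2) := by nlinarith [sq_nonneg (w - a * x)]
    have e2 : a ^ 2 * x ^ 2 ≤ 2 * w * x ^ 2 := by gcongr
    have e3 : w * x ^ 2 ≤ 1 / 2 * (w ^ 2 + x ^ 4) := by nlinarith [sq_nonneg (w - x ^ 2)]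
    linarith
  have h4 : a * w * x ^ 2 ≤ 1 / 128 * w ^ 2 + 128 * x ^ 4 := by
    have e1 : a * w * x ^ 2 ≤ 1 / 2 * (1 / 64 * w ^ 2 + 64 * (a ^ 2 * x ^ 4)) := by
      nlinarith [sq_nonneg (1 / 8 * w - 8 * (a * x ^ 2))]
    have e2 : a ^ 2 * x ^ 4 ≤ 2 * w * x ^ 4 := by gcongr
    have e3 : 2 * w * x ^ 4 ≤ 2 * 2 * x ^ 4 := by gcongr
    linarith
  have h5 : w * x ^ 3 ≤ 1 / 2 * (w ^ 2 + x ^ 4) := by
    have e1 : w * x ^ 3 ≤ 1 / 2 * (w ^ 2 + x ^ 6) := by nlinarith [sq_nonneg (w - x ^ 3)]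
    have e2 : x ^ 6 ≤ x ^ 4 := pow_le_pow_of_le_one hx hx1 (by norm_num)
    linarith
  have h6 : w * x ^ 4 ≤ 2 * x ^ 4 := by gcongr
  calc a * w * (8 * x ^ 3 + 2240 * x ^ 4) * l + a ^ 2 * (4 * x ^ 7 + 896 * x ^ 8) * q
      ≤ a * w * (8 * x + 2240 * x ^ 2) * (2 * u) + 2 * w * (4 * x ^ 3 + 896 * x ^ 4) * (48 * u) :=
        add_le_add h1 h2
    _ = (16 * (a * w * x) + 4480 * (a * w * x ^ 2) + 384 * (w * x ^ 3) + 86016 * (w * x ^ 4)) * u := by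
        ring
    _ ≤ (16 * (w ^ 2 + 1 / 2 * x ^ 4) + 4480 * (1 / 128 * w ^ 2 + 128 * x ^ 4)
          + 384 * (1 / 2 * (w ^ 2 + x ^ 4)) + 86016 * (2 * x ^ 4)) * u := by
        gcongr
    _ = 243 * w ^ 2 * u + 745672 * (x ^ 4 * u) := by ring

/-- The remainder estimate. -/
lemma oneD_estimate {g P L A B Q : ℝ → ℂ} {c d : ℂ} {ε : ℝ}
    (hg : ∀ x ∈ Icc (0:ℝ) 1, HasDerivAt g (-4 * (x:ℂ) ^ 3 * P x) x)
    (hP : ∀ x ∈ Icc (0:ℝ) 1, HasDerivAt P (-4 * (x:ℂ) ^ 3 * A x) x)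
    (hL : ∀ x ∈ Icc (0:ℝ) 1, HasDerivAt L (-4 * (x:ℂ) ^ 3 * B x) x)
    (hA : ContinuousOn A (Icc 0 1)) (hB : ContinuousOn B (Icc 0 1)) (hQ : ContinuousOn Q (Icc 0 1))
    (hc : ‖c‖ ≤ 1) (hd : ‖d‖ ≤ 1) (hcd : ‖d‖ ^ 2 ≤ 2 * ‖1 + c‖)
    (hε : 0 ≤ ε) (hg1 : g 1 = ε) (hP1 : ‖P 1‖ ≤ 2 * ε) (hL1 : ‖L 1‖ ≤ 2 * ε)
    (hu : ∀ x ∈ Icc (0:ℝ) 1, 0 ≤ (g x).re)
    (hub : ∀ x ∈ Icc (0:ℝ) 1, x ^ 4 * (g x).re ≤ 2 * ε)
    (hLb : ∀ x ∈ Icc (0:ℝ) 1, x ^ 2 * ‖L x‖ ≤ 2 * (g x).re)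
    (hQb : ∀ x ∈ Icc (0:ℝ) 1, x ^ 4 * ‖Q x‖ ≤ 48 * (g x).re) :
    ‖g 0 + (∫ x in (0:ℝ)..1, (280 * g x + (8 * (x:ℂ) ^ 3 + 2240 * (x:ℂ) ^ 4) * (c * P x + d * L x)
        + (4 * (x:ℂ) ^ 7 + 896 * (x:ℂ) ^ 8) * (c ^ 2 * A x + 2 * c * d * B x + d ^ 2 * Q x)))
      - (1 + c) ^ 2 * g 0 - 280 * (1 + c) ^ 2 * (∫ x in (0:ℝ)..1, g x)‖
      ≤ 243 * ‖1 + c‖ ^ 2 * (∫ x in (0:ℝ)..1, (g x).re) + 1493537 * ε := by
  have hgc : ContinuousOn g (Icc 0 1) := fun x hx => (hg x hx).continuousAt.continuousWithinAt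
  have hPc : ContinuousOn P (Icc 0 1) := fun x hx => (hP x hx).continuousAt.continuousWithinAt
  have hLc : ContinuousOn L (Icc 0 1) := fun x hx => (hL x hx).continuousAt.continuousWithinAt
  have hgre : ContinuousOn (fun x => (g x).re) (Icc 0 1) := continuous_re.comp_continuousOn hgc
  rw [oneD_identity hg hP hL hA hB hQ]
  set S : ℂ := ((2 * c + c ^ 2) * g 1 + c ^ 2 * P 1 + 2 * c * d * L 1
          + 280 * ((2 * c + c ^ 2) * g 1 + 4 / 5 * c ^ 2 * P 1 + 8 / 5 * c * d * L 1)) with hS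
  set J : ℂ := ∫ x in (0:ℝ)..1, (d * (1 + c) * (8 * (x:ℂ) ^ 3 + 2240 * (x:ℂ) ^ 4) * L x
            + d ^ 2 * (4 * (x:ℂ) ^ 7 + 896 * (x:ℂ) ^ 8) * Q x) with hJ
  have e : g 0 + ((2 * c + c ^ 2) * g 0 - S + 280 * (1 + c) ^ 2 * (∫ x in (0:ℝ)..1, g x) + J)
      - (1 + c) ^ 2 * g 0 - 280 * (1 + c) ^ 2 * (∫ x in (0:ℝ)..1, g x) = J - S := by ring
  rw [e]
  have hSb : ‖S‖ ≤ 2193 * ε := by
    have n1 : ‖(2 * c + c ^ 2) * g 1‖ ≤ 3 * ε := by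
      rw [norm_mul, hg1, norm_real, Real.norm_eq_abs, abs_of_nonneg hε]
      gcongr
      calc ‖2 * c + c ^ 2‖ ≤ ‖2 * c‖ + ‖c ^ 2‖ := norm_add_le _ _
        _ = 2 * ‖c‖ + ‖c‖ ^ 2 := by simp
        _ ≤ 2 * 1 + 1 ^ 2 := by gcongr
        _ = 3 := by norm_num
    have n2 : ‖c ^ 2 * P 1‖ ≤ 2 * ε := by
      rw [norm_mul, norm_pow]
      calc ‖c‖ ^ 2 * ‖P 1‖ ≤ 1 ^ 2 * (2 * ε) := by gcongr
        _ = 2 * ε := by ring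
    have n3 : ‖c * d * L 1‖ ≤ 2 * ε := by
      rw [norm_mul, norm_mul]
      calc ‖c‖ * ‖d‖ * ‖L 1‖ ≤ 1 * 1 * (2 * ε) := by gcongr
        _ = 2 * ε := by ring
    have e2 : S = 281 * ((2 * c + c ^ 2) * g 1) + 225 * (c ^ 2 * P 1) + 450 * (c * d * L 1) := by
      rw [hS]; ring
    rw [e2]
    calc ‖281 * ((2 * c + c ^ 2) * g 1) + 225 * (c ^ 2 * P 1) + 450 * (c * d * L 1)‖
        ≤ ‖281 * ((2 * c + c ^ 2) * g 1)‖ + ‖225 * (c ^ 2 * P 1)‖ + ‖450 * (c * d * L 1)‖ :=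
          norm_add₃_le
      _ = 281 * ‖(2 * c + c ^ 2) * g 1‖ + 225 * ‖c ^ 2 * P 1‖ + 450 * ‖c * d * L 1‖ := by
          rw [norm_mul 281, norm_mul 225, norm_mul 450]
          simp
      _ ≤ 281 * (3 * ε) + 225 * (2 * ε) + 450 * (2 * ε) := by gcongr
      _ = 2193 * ε := by ring
  have hJb : ‖J‖ ≤ 243 * ‖1 + c‖ ^ 2 * (∫ x in (0:ℝ)..1, (g x).re) + 1491344 * ε := by
    have hw2 : ‖1 + c‖ ≤ 2 := by
      calc ‖1 + c‖ ≤ ‖(1:ℂ)‖ + ‖c‖ := norm_add_le _ _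
        _ ≤ 1 + 1 := by rw [norm_one]; gcongr
        _ = 2 := by norm_num
    have hbd : ∀ x ∈ Icc (0:ℝ) 1, ‖d * (1 + c) * (8 * (x:ℂ) ^ 3 + 2240 * (x:ℂ) ^ 4) * L x
            + d ^ 2 * (4 * (x:ℂ) ^ 7 + 896 * (x:ℂ) ^ 8) * Q x‖
            ≤ 243 * ‖1 + c‖ ^ 2 * (g x).re + 1491344 * ε := by
      intro x hx
      have hx0 : 0 ≤ x := hx.1
      have c1 : ‖(8 * (x:ℂ) ^ 3 + 2240 * (x:ℂ) ^ 4)‖ = 8 * x ^ 3 + 2240 * x ^ 4 := by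
        have : (8 * (x:ℂ) ^ 3 + 2240 * (x:ℂ) ^ 4) = ((8 * x ^ 3 + 2240 * x ^ 4 : ℝ) : ℂ) := by
          push_cast; ring
        rw [this, norm_real, Real.norm_eq_abs, abs_of_nonneg (by positivity)]
      have c2 : ‖(4 * (x:ℂ) ^ 7 + 896 * (x:ℂ) ^ 8)‖ = 4 * x ^ 7 + 896 * x ^ 8 := by
        have : (4 * (x:ℂ) ^ 7 + 896 * (x:ℂ) ^ 8) = ((4 * x ^ 7 + 896 * x ^ 8 : ℝ) : ℂ) := by
          push_cast; ring
        rw [this, norm_real, Real.norm_eq_abs, abs_of_nonneg (by positivity)]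
      calc ‖d * (1 + c) * (8 * (x:ℂ) ^ 3 + 2240 * (x:ℂ) ^ 4) * L x
            + d ^ 2 * (4 * (x:ℂ) ^ 7 + 896 * (x:ℂ) ^ 8) * Q x‖
          ≤ ‖d * (1 + c) * (8 * (x:ℂ) ^ 3 + 2240 * (x:ℂ) ^ 4) * L x‖
            + ‖d ^ 2 * (4 * (x:ℂ) ^ 7 + 896 * (x:ℂ) ^ 8) * Q x‖ := norm_add_le _ _
        _ = ‖d‖ * ‖1 + c‖ * (8 * x ^ 3 + 2240 * x ^ 4) * ‖L x‖
            + ‖d‖ ^ 2 * (4 * x ^ 7 + 896 * x ^ 8) * ‖Q x‖ := by
            rw [norm_mul, norm_mul, norm_mul, c1, norm_mul, norm_mul, norm_pow, c2]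
        _ ≤ 243 * ‖1 + c‖ ^ 2 * (g x).re + 745672 * (x ^ 4 * (g x).re) :=
            pointwise_bound (norm_nonneg _) (norm_nonneg _) hw2 hcd hx0 hx.2 (hu x hx)
              (norm_nonneg _) (hLb x hx) (hQb x hx)
        _ ≤ 243 * ‖1 + c‖ ^ 2 * (g x).re + 745672 * (2 * ε) := by
            have := hub x hx
            linarith
        _ = _ := by ring
    have hint : IntervalIntegrable (fun x => 243 * ‖1 + c‖ ^ 2 * (g x).re + 1491344 * ε) volume 0 1 := by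
      apply ContinuousOn.intervalIntegrable
      rw [uIcc_of_le zero_le_one]
      fun_prop
    have hint' : IntervalIntegrable (fun x => 243 * ‖1 + c‖ ^ 2 * (g x).re) volume 0 1 := by
      apply ContinuousOn.intervalIntegrable
      rw [uIcc_of_le zero_le_one]
      fun_prop
    calc ‖J‖ ≤ ∫ x in (0:ℝ)..1, (243 * ‖1 + c‖ ^ 2 * (g x).re + 1491344 * ε) := by
          rw [hJ]
          apply intervalIntegral.norm_integral_le_of_norm_le zero_le_one _ hint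
          refine Filter.Eventually.of_forall fun x hx => ?_
          exact hbd x ⟨hx.1.le, hx.2⟩
      _ = 243 * ‖1 + c‖ ^ 2 * (∫ x in (0:ℝ)..1, (g x).re) + 1491344 * ε := by
          rw [intervalIntegral.integral_add hint' (by simp), intervalIntegral.integral_const_mul]
          simp
  calc ‖J - S‖ ≤ ‖J‖ + ‖S‖ := norm_sub_le _ _
    _ ≤ (243 * ‖1 + c‖ ^ 2 * (∫ x in (0:ℝ)..1, (g x).re) + 1491344 * ε) + 2193 * ε := by gcongr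
    _ = _ := by ring

end Pool.Agent.BallAlg
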