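import Mathlib

set_option autoImplicit false

open Complex Metric Set Filter Topology

namespace Pool.Agent.BallAlg

section general
variable {E : Type*} [NormedAddCommGroup E] [NormedSpace ℂ E]

/-- The Cayley-type transform of a function with positive real part is a contraction. -/
lemma norm_cayley_le {a b : ℂ} (ha : 0 < a.re) (hb : 0 < b.re) :
    ‖(b - a) / (b + (starRingEnd ℂ) a)‖ ≤ 1 := by
  have hne : b + (starRingEnd ℂ) a ≠ 0 := by
    intro h
    have : (b + (starRingEnd ℂ) a).re = 0 := by rw [h]; simp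
    simp at this
    linarith
  rw [norm_div, div_le_one (norm_pos_iff.2 hne)]
  apply le_of_sq_le_sq _ (norm_nonneg _)
  rw [← Complex.normSq_eq_norm_sq, ← Complex.normSq_eq_norm_sq, Complex.normSq_apply,
    Complex.normSq_apply]
  simp
  nlinarith

lemma norm_sub_le_of_re_pos {f : E → ℂ} {c : E} {R : ℝ} (hd : DifferentiableOn ℂ f (ball c R))
    (hpos : ∀ z ∈ ball c R, 0 < (f z).re) {z : E} (hz : z ∈ ball c R) :
    (R - dist z c) * ‖f z - f c‖ ≤ 2 * (f c).re * dist z c := by
  have hR : 0 < R := by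
    by_contra h
    push Not at h
    rw [ball_eq_empty.2 h] at hz
    exact hz
  have hc : c ∈ ball c R := mem_ball_self hR
  have hac := hpos c hc
  have hne : ∀ w ∈ ball c R, f w + (starRingEnd ℂ) (f c) ≠ 0 := by
    intro w hw h
    have : (f w + (starRingEnd ℂ) (f c)).re = 0 := by rw [h]; simp
    simp at this
    have := hpos w hw
    linarith
  set ψ : E → ℂ := fun w => (f w - f c) / (f w + (starRingEnd ℂ) (f c)) with hψ
  have hψd : DifferentiableOn ℂ ψ (ball c R) := by
    simp only [hψ, div_eq_mul_inv]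
    exact (hd.sub_const _).mul ((hd.add_const _).fun_inv hne)
  have hψc : ψ c = 0 := by simp [hψ]
  have hmaps : MapsTo ψ (ball c R) (closedBall (ψ c) 1) := by
    intro w hw
    rw [hψc, mem_closedBall_zero_iff]
    exact norm_cayley_le hac (hpos w hw)
  have h1 := dist_le_div_mul_dist_of_mapsTo_ball hψd hmaps hz
  rw [hψc, dist_zero_right] at h1
  have h2 : f z - f c = ψ z * (f z + (starRingEnd ℂ) (f c)) := by
    simp only [hψ]
    field_simp [hne z hz]
  have h3 : ‖f z - f c‖ ≤ ‖ψ z‖ * (‖f z - f c‖ + 2 * (f c).re) := by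
    have h4 : f z + (starRingEnd ℂ) (f c) = (f z - f c) + ((2 * (f c).re : ℝ) : ℂ) := by
      apply Complex.ext
      · simp; ring
      · simp; ring
    calc ‖f z - f c‖ = ‖ψ z‖ * ‖f z + (starRingEnd ℂ) (f c)‖ := by
          conv_lhs => rw [h2]
          rw [norm_mul]
      _ ≤ ‖ψ z‖ * (‖f z - f c‖ + 2 * (f c).re) := by
          gcongr
          rw [h4]
          refine (norm_add_le _ _).trans ?_
          rw [norm_real, Real.norm_eq_abs, abs_of_pos (by linarith)]
  have hd0 : 0 ≤ dist z c := dist_nonneg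
  have hzR : dist z c < R := hz
  have h5 : R * ‖ψ z‖ ≤ dist z c := by
    calc R * ‖ψ z‖ ≤ R * (1 / R * dist z c) := by gcongr
      _ = dist z c := by field_simp
  have hn : 0 ≤ ‖f z - f c‖ := norm_nonneg _
  have h6 : R * ‖f z - f c‖ ≤ dist z c * (‖f z - f c‖ + 2 * (f c).re) := by
    calc R * ‖f z - f c‖ ≤ R * (‖ψ z‖ * (‖f z - f c‖ + 2 * (f c).re)) := by gcongr
      _ = (R * ‖ψ z‖) * (‖f z - f c‖ + 2 * (f c).re) := by ring
      _ ≤ _ := by gcongr
  linarith

lemma norm_fderiv_le_of_re_pos {f : E → ℂ} {c : E} {R : ℝ} (hR : 0 < R)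
    (hd : DifferentiableOn ℂ f (ball c R)) (hpos : ∀ z ∈ ball c R, 0 < (f z).re) :
    R * ‖fderiv ℂ f c‖ ≤ 2 * (f c).re := by
  have hc : c ∈ ball c R := mem_ball_self hR
  have hac := hpos c hc
  -- local Lipschitz bound with constant `2 Re f(c) / (R - δ)`
  have key : ∀ δ : ℝ, 0 < δ → δ < R → ‖fderiv ℂ f c‖ ≤ 2 * (f c).re / (R - δ) := by
    intro δ hδ hδR
    refine norm_fderiv_le_of_lip' _ (by have : 0 < R - δ := by linarith
                                        positivity) ?_
    filter_upwards [ball_mem_nhds c hδ] with z hz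
    have hzR : z ∈ ball c R := ball_subset_ball hδR.le hz
    have h1 := norm_sub_le_of_re_pos hd hpos hzR
    have hz' : dist z c < δ := hz
    have h2 : (R - δ) * ‖f z - f c‖ ≤ (R - dist z c) * ‖f z - f c‖ := by gcongr
    rw [div_mul_eq_mul_div, le_div_iff₀ (by linarith), mul_comm, ← dist_eq_norm z c]
    linarith
  by_contra hcon
  push Not at hcon
  set D := ‖fderiv ℂ f c‖ with hD
  have hDpos : 0 < D := by
    by_contra h
    push Not at h
    nlinarith
  -- choose δ small
  set δ := (R * D - 2 * (f c).re) / (2 * D) with hδdef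
  have hδpos : 0 < δ := by
    apply div_pos <;> linarith
  have hδR : δ < R := by
    rw [hδdef, div_lt_iff₀ (by positivity)]
    nlinarith
  have := key δ hδpos hδR
  rw [le_div_iff₀ (by linarith)] at this
  have h3 : D * (R - δ) = R * D - (R * D - 2 * (f c).re) / 2 := by
    rw [hδdef]; field_simp
  rw [h3] at this
  linarith

end general

/-- Second derivative bound for one-variable functions with positive real part. -/
lemma norm_deriv_deriv_le_of_re_pos {φ : ℂ → ℂ} {ρ : ℝ} (hρ : 0 < ρ)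
    (hd : DifferentiableOn ℂ φ (ball 0 ρ)) (hpos : ∀ z ∈ ball (0:ℂ) ρ, 0 < (φ z).re) :
    ρ ^ 2 * ‖deriv (deriv φ) 0‖ ≤ 48 * (φ 0).re := by
  have h0 := hpos 0 (mem_ball_self hρ)
  have hd' : DifferentiableOn ℂ (deriv φ) (ball 0 ρ) := hd.deriv isOpen_ball
  have hb : ∀ z ∈ sphere (0:ℂ) (ρ / 4), ‖deriv φ z‖ ≤ 12 * (φ 0).re / ρ := by
    intro z hz
    have hzn : ‖z‖ = ρ / 4 := by simpa using hz
    have hz1 : z ∈ ball (0:ℂ) ρ := by
      rw [mem_ball_zero_iff]; linarith
    have h1 := norm_sub_le_of_re_pos hd hpos hz1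
    rw [dist_zero_right, hzn] at h1
    have h2 : ‖φ z - φ 0‖ ≤ (φ 0).re := by
      by_contra h
      push Not at h
      nlinarith
    have h3 : (φ z).re ≤ 2 * (φ 0).re := by
      have : (φ z - φ 0).re ≤ ‖φ z - φ 0‖ := re_le_norm _
      simp at this
      linarith
    have hsub : ball z (ρ / 2) ⊆ ball 0 ρ := by
      intro w hw
      rw [mem_ball, dist_eq_norm] at hw
      rw [mem_ball_zero_iff]
      calc ‖w‖ = ‖(w - z) + z‖ := by ring_nf
        _ ≤ ‖w - z‖ + ‖z‖ := norm_add_le _ _
        _ < ρ := by rw [hzn]; linarith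
    have h4 := norm_fderiv_le_of_re_pos (by positivity : 0 < ρ / 2) (hd.mono hsub)
      (fun w hw => hpos w (hsub hw))
    rw [← norm_deriv_eq_norm_fderiv] at h4
    rw [le_div_iff₀ hρ]
    nlinarith
  have h5 := norm_deriv_le_of_forall_mem_sphere_norm_le (by positivity : 0 < ρ / 4)
    (f := deriv φ) (c := 0) (C := 12 * (φ 0).re / ρ)
    ((hd'.mono (closedBall_subset_ball (by linarith))).diffContOnCl_ball subset_rfl) hb
  calc ρ ^ 2 * ‖deriv (deriv φ) 0‖ ≤ ρ ^ 2 * (12 * (φ 0).re / ρ / (ρ / 4)) := by gcongr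
    _ = 48 * (φ 0).re := by field_simp; ring

end Pool.Agent.BallAlg
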