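import Mathlib

set_option autoImplicit false

open Complex Metric Set Filter MeasureTheory Topology
open scoped Real Interval

namespace Pool.Agent.BallAlg

variable {E : Type*} [NormedAddCommGroup E] [NormedSpace ℂ E] [FiniteDimensional ℂ E]

omit [FiniteDimensional ℂ E] in
/-- Cauchy-type bound for the derivative near a point. -/
lemma exists_ball_fderiv_bound {F : E → ℂ} {U : Set E} (hU : IsOpen U) (hF : DifferentiableOn ℂ F U)
    {z₀ : E} (hz₀ : z₀ ∈ U) :
    ∃ δ > 0, ball z₀ δ ⊆ U ∧ ∃ C : ℝ, ∀ w ∈ ball z₀ (δ / 2), ‖fderiv ℂ F w‖ ≤ C := by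
  have hcont : ContinuousAt F z₀ := (hF.differentiableAt (hU.mem_nhds hz₀)).continuousAt
  obtain ⟨δ₁, hδ₁, h1⟩ := Metric.isOpen_iff.1 hU z₀ hz₀
  obtain ⟨δ₂, hδ₂, h2⟩ := Metric.continuousAt_iff.1 hcont 1 one_pos
  refine ⟨min δ₁ δ₂, lt_min hδ₁ hδ₂, (ball_subset_ball (min_le_left _ _)).trans h1, 2 / (min δ₁ δ₂ / 2), ?_⟩
  intro w hw
  set δ := min δ₁ δ₂ with hδ
  have hδpos : 0 < δ := lt_min hδ₁ hδ₂
  have hsub : ball w (δ / 2) ⊆ ball z₀ δ := by
    intro x hx
    rw [mem_ball] at *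
    calc dist x z₀ ≤ dist x w + dist w z₀ := dist_triangle _ _ _
      _ < δ / 2 + δ / 2 := add_lt_add hx hw
      _ = δ := by ring
  apply norm_fderiv_le_div_of_mapsTo_ball
  · exact hF.mono (hsub.trans ((ball_subset_ball (min_le_left _ _)).trans h1))
  · intro x hx
    have hx' : dist x z₀ < δ₂ := lt_of_lt_of_le (hsub hx) (min_le_right _ _)
    have hw1 : dist w z₀ < δ := lt_of_lt_of_le hw (by linarith)
    have hw' : dist w z₀ < δ₂ := lt_of_lt_of_le hw1 (min_le_right _ _)
    rw [mem_closedBall]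
    calc dist (F x) (F w) ≤ dist (F x) (F z₀) + dist (F w) (F z₀) := dist_triangle_right _ _ _
      _ ≤ 1 + 1 := add_le_add (h2 hx').le (h2 hw').le
      _ = 2 := by norm_num
  · positivity

lemma differentiableOn_fderiv_apply {F : E → ℂ} {U : Set E} (hU : IsOpen U)
    (hF : DifferentiableOn ℂ F U) (v : E) :
    DifferentiableOn ℂ (fun z => fderiv ℂ F z v) U := by
  intro z₀ hz₀
  apply DifferentiableAt.differentiableWithinAt
  obtain ⟨δ, hδ, hsub, C, hC⟩ := exists_ball_fderiv_bound hU hF hz₀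
  set r : ℝ := δ / (4 * (‖v‖ + 1)) with hr
  have hv0 : 0 < ‖v‖ + 1 := by positivity
  have hrpos : 0 < r := by positivity
  have hrv : r * ‖v‖ < δ / 4 := by
    have : r * (‖v‖ + 1) = δ / 4 := by rw [hr]; field_simp
    nlinarith
  have hmem : ∀ z ∈ ball z₀ (δ / 4), ∀ w : ℂ, ‖w‖ ≤ r → z + w • v ∈ ball z₀ (δ / 2) := by
    intro z hz w hw
    rw [mem_ball, dist_eq_norm] at *
    have : z + w • v - z₀ = (z - z₀) + w • v := by abel
    rw [this]
    calc ‖(z - z₀) + w • v‖ ≤ ‖z - z₀‖ + ‖w • v‖ := norm_add_le _ _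
      _ = ‖z - z₀‖ + ‖w‖ * ‖v‖ := by rw [norm_smul]
      _ ≤ ‖z - z₀‖ + r * ‖v‖ := by gcongr
      _ < δ / 4 + δ / 4 := add_lt_add hz hrv
      _ = δ / 2 := by ring
  have hsub2 : ball z₀ (δ / 2) ⊆ U := (ball_subset_ball (by linarith)).trans hsub
  -- Cauchy formula
  have hform : ∀ z ∈ ball z₀ (δ / 4), fderiv ℂ F z v
      = (2 * π * I : ℂ)⁻¹ • ∫ θ in (0:ℝ)..(2 * π), (deriv (circleMap 0 r) θ * ((circleMap 0 r θ) ^ 2)⁻¹)
        * F (z + circleMap 0 r θ • v) := by
    intro z hz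
    have hUo : IsOpen ((fun w : ℂ => z + w • v) ⁻¹' U) :=
      hU.preimage (by fun_prop)
    have hd : DifferentiableOn ℂ (fun w : ℂ => F (z + w • v)) ((fun w : ℂ => z + w • v) ⁻¹' U) := by
      apply hF.comp
      · fun_prop
      · intro w hw; exact hw
    have hcl : closedBall (0:ℂ) r ⊆ ((fun w : ℂ => z + w • v) ⁻¹' U) := by
      intro w hw
      rw [mem_closedBall_zero_iff] at hw
      exact hsub2 (hmem z hz w hw)
    have h1 := cderiv_eq_deriv hUo hd hrpos hcl
    have h2 : deriv (fun w : ℂ => F (z + w • v)) 0 = fderiv ℂ F z v := by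
      have hz' : z ∈ U := by
        have := hsub2 (hmem z hz 0 (by simpa using hrpos.le))
        simpa using this
      have hda : HasFDerivAt F (fderiv ℂ F z) (z + (0:ℂ) • v) := by
        simpa using (hF.differentiableAt (hU.mem_nhds hz')).hasFDerivAt
      have hl : HasDerivAt (fun w : ℂ => z + w • v) v 0 := by
        have := ((hasDerivAt_id (0:ℂ)).smul_const v).const_add z
        simpa using this
      exact (hda.comp_hasDerivAt (0:ℂ) hl).deriv
    rw [← h2, ← h1]
    unfold cderiv circleIntegral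
    simp only [smul_eq_mul, sub_zero, mul_assoc]
  have hcont : ∀ z ∈ ball z₀ (δ / 4), Continuous fun θ : ℝ => F (z + circleMap 0 r θ • v) := by
    intro z hz
    apply ContinuousOn.comp_continuous (hF.continuousOn)
    · fun_prop
    · intro θ
      apply hsub2 (hmem z hz _ _)
      simp [abs_of_pos hrpos]
  have hc : Continuous fun θ : ℝ => deriv (circleMap 0 r) θ * ((circleMap 0 r θ) ^ 2)⁻¹ := by
    have h1 : Continuous fun θ : ℝ => deriv (circleMap 0 r) θ := by
      simp only [deriv_circleMap]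
      fun_prop
    apply h1.mul
    apply Continuous.inv₀ (by fun_prop)
    intro θ
    simp [hrpos.ne']
  have hev : (fun z => fderiv ℂ F z v) =ᶠ[𝓝 z₀] fun z => (2 * π * I : ℂ)⁻¹ • ∫ θ in (0:ℝ)..(2 * π),
      (deriv (circleMap 0 r) θ * ((circleMap 0 r θ) ^ 2)⁻¹) * F (z + circleMap 0 r θ • v) := by
    filter_upwards [ball_mem_nhds z₀ (by positivity : 0 < δ / 4)] with z hz using hform z hz
  refine DifferentiableAt.congr_of_eventuallyEq ?_ hev
  apply DifferentiableAt.fun_const_smul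
  borelize E
  have hC' : ∀ z ∈ ball z₀ (δ / 4), ∀ θ : ℝ, ‖fderiv ℂ F (z + circleMap 0 r θ • v)‖ ≤ C := by
    intro z hz θ
    exact hC _ (hmem z hz _ (by simp [abs_of_pos hrpos]))
  have key := intervalIntegral.hasFDerivAt_integral_of_dominated_of_fderiv_le (𝕜 := ℂ) (μ := volume)
    (a := 0) (b := 2 * π)
    (F := fun z θ => (deriv (circleMap 0 r) θ * ((circleMap 0 r θ) ^ 2)⁻¹) * F (z + circleMap 0 r θ • v))
    (F' := fun z θ => (deriv (circleMap 0 r) θ * ((circleMap 0 r θ) ^ 2)⁻¹) • fderiv ℂ F (z + circleMap 0 r θ • v))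
    (x₀ := z₀) (s := ball z₀ (δ / 4)) (bound := fun θ => ‖deriv (circleMap 0 r) θ * ((circleMap 0 r θ) ^ 2)⁻¹‖ * C)
    (ball_mem_nhds z₀ (by positivity)) ?_ ?_ ?_ ?_ ?_ ?_
  · exact key.differentiableAt
  · filter_upwards [ball_mem_nhds z₀ (by positivity : 0 < δ / 4)] with z hz
    exact (hc.mul (hcont z hz)).aestronglyMeasurable
  · exact (hc.mul (hcont z₀ (mem_ball_self (by positivity)))).intervalIntegrable _ _
  · apply AEStronglyMeasurable.smul hc.aestronglyMeasurable
    apply Measurable.aestronglyMeasurable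
    apply (measurable_fderiv ℂ F).comp
    apply Continuous.measurable
    fun_prop
  · refine Filter.Eventually.of_forall fun θ _ z hz => ?_
    rw [norm_smul]
    gcongr
    exact hC' z hz θ
  · exact (hc.norm.mul continuous_const).intervalIntegrable _ _
  · refine Filter.Eventually.of_forall fun θ _ z hz => ?_
    have hz' : z + circleMap 0 r θ • v ∈ U := hsub2 (hmem z hz _ (by simp [abs_of_pos hrpos]))
    have h1 : HasFDerivAt F (fderiv ℂ F (z + circleMap 0 r θ • v)) (z + circleMap 0 r θ • v) :=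
      (hF.differentiableAt (hU.mem_nhds hz')).hasFDerivAt
    have h2 : HasFDerivAt (fun z => z + circleMap 0 r θ • v) (ContinuousLinearMap.id ℂ E) z :=
      (hasFDerivAt_id z).add_const _
    have h3 := h1.comp z h2
    simp only [ContinuousLinearMap.comp_id] at h3
    exact h3.const_mul _

theorem contDiffOn_nat_of_differentiableOn {F : E → ℂ} {U : Set E} (hU : IsOpen U)
    (hF : DifferentiableOn ℂ F U) (n : ℕ) : ContDiffOn ℂ n F U := by
  induction n generalizing F with
  | zero => simpa using hF.continuousOn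
  | succ n ih =>
    push_cast
    rw [contDiffOn_succ_iff_fderiv_apply hU.uniqueDiffOn]
    refine ⟨hF, by simp, fun y => ?_⟩
    have h := ih (differentiableOn_fderiv_apply hU hF y)
    refine h.congr fun x hx => ?_
    rw [fderivWithin_of_isOpen hU hx]

theorem differentiableOn_integral {G : E → ℂ} {R : ℝ} (hG : DifferentiableOn ℂ G (ball 0 R))
    {β : ℝ → ℂ} (hβ : Continuous β) {c : ℝ → ℝ} (hc : Continuous c)
    (hc1 : ∀ x ∈ Icc (0:ℝ) 1, |c x| ≤ 1) :
    DifferentiableOn ℂ (fun z => ∫ x in (0:ℝ)..1, β x * G ((c x : ℂ) • z)) (ball 0 R) := by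
  intro z₀ hz₀
  apply DifferentiableAt.differentiableWithinAt
  rw [mem_ball_zero_iff] at hz₀
  obtain ⟨ρ, hρ1, hρ2⟩ := exists_between hz₀
  have hC1 : ContDiffOn ℂ 1 G (ball 0 R) := contDiffOn_nat_of_differentiableOn isOpen_ball hG 1
  have hfc : ContinuousOn (fderiv ℂ G) (ball 0 R) :=
    hC1.continuousOn_fderiv_of_isOpen isOpen_ball le_rfl
  have hsub : closedBall (0:E) ρ ⊆ ball 0 R := closedBall_subset_ball hρ2
  have := FiniteDimensional.proper ℂ E
  obtain ⟨C, hC⟩ := (isCompact_closedBall (0:E) ρ).exists_bound_of_continuousOn (hfc.mono hsub)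
  have hmem : ∀ z ∈ ball (0:E) ρ, ∀ x ∈ Icc (0:ℝ) 1, (c x : ℂ) • z ∈ closedBall (0:E) ρ := by
    intro z hz x hx
    rw [mem_ball_zero_iff] at hz
    rw [mem_closedBall_zero_iff, norm_smul, norm_real, Real.norm_eq_abs]
    calc |c x| * ‖z‖ ≤ 1 * ‖z‖ := by gcongr; exact hc1 x hx
      _ ≤ ρ := by linarith
  have hIoc : Ι (0:ℝ) 1 ⊆ Icc 0 1 := by
    rw [uIoc_of_le zero_le_one]; exact Ioc_subset_Icc_self
  have hcont : ∀ z ∈ ball (0:E) ρ, ContinuousOn (fun x => β x * G ((c x : ℂ) • z)) (Icc 0 1) := by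
    intro z hz
    apply hβ.continuousOn.mul
    apply hG.continuousOn.comp
    · fun_prop
    · intro x hx; exact hsub (hmem z hz x hx)
  have hz₀ρ : z₀ ∈ ball (0:E) ρ := by rwa [mem_ball_zero_iff]
  have key := intervalIntegral.hasFDerivAt_integral_of_dominated_of_fderiv_le (𝕜 := ℂ) (μ := volume)
    (a := 0) (b := 1)
    (F := fun z x => β x * G ((c x : ℂ) • z))
    (F' := fun z x => (β x * (c x : ℂ)) • fderiv ℂ G ((c x : ℂ) • z))
    (x₀ := z₀) (s := ball (0:E) ρ) (bound := fun x => ‖β x‖ * C)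
    (isOpen_ball.mem_nhds hz₀ρ) ?_ ?_ ?_ ?_ ?_ ?_
  · exact key.differentiableAt
  · filter_upwards [isOpen_ball.mem_nhds hz₀ρ] with z hz
    exact ((hcont z hz).mono hIoc).aestronglyMeasurable measurableSet_uIoc
  · apply ContinuousOn.intervalIntegrable
    rw [uIcc_of_le zero_le_one]
    exact hcont z₀ hz₀ρ
  · have : ContinuousOn (fun x => (β x * (c x : ℂ)) • fderiv ℂ G ((c x : ℂ) • z₀)) (Icc 0 1) := by
      apply ContinuousOn.fun_smul
      · fun_prop
      · apply hfc.comp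
        · fun_prop
        · intro x hx; exact hsub (hmem z₀ hz₀ρ x hx)
    exact (this.mono hIoc).aestronglyMeasurable measurableSet_uIoc
  · refine Filter.Eventually.of_forall fun x hx z hz => ?_
    have hx' := hIoc hx
    rw [norm_smul, norm_mul, norm_real, Real.norm_eq_abs]
    have h1 := hC _ (hmem z hz x hx')
    have h2 := hc1 x hx'
    have h0 : 0 ≤ ‖fderiv ℂ G ((c x : ℂ) • z)‖ := norm_nonneg _
    calc ‖β x‖ * |c x| * ‖fderiv ℂ G ((c x : ℂ) • z)‖
        ≤ ‖β x‖ * 1 * C := by gcongr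
      _ = ‖β x‖ * C := by ring
  · exact (hβ.norm.mul continuous_const).intervalIntegrable _ _
  · refine Filter.Eventually.of_forall fun x hx z hz => ?_
    have hx' := hIoc hx
    have hz' : (c x : ℂ) • z ∈ ball (0:E) R := hsub (hmem z hz x hx')
    have h1 : HasFDerivAt G (fderiv ℂ G ((c x : ℂ) • z)) ((c x : ℂ) • z) :=
      (hG.differentiableAt (isOpen_ball.mem_nhds hz')).hasFDerivAt
    have h2 : HasFDerivAt (fun z : E => (c x : ℂ) • z) ((c x : ℂ) • ContinuousLinearMap.id ℂ E) z :=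
      (hasFDerivAt_id z).const_smul (c x : ℂ)
    have h3 := (h1.comp z h2).const_mul (β x)
    convert! h3 using 1
    ext v
    simp
    ring

end Pool.Agent.BallAlg
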