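import Mathlib
import Pool.Agent.BallAlg.SCV
import Pool.Agent.BallAlg.Pos
import Pool.Agent.BallAlg.OneD

set_option autoImplicit false

open Complex Metric Set Filter MeasureTheory Topology
open scoped Real Interval ComplexConjugate

namespace Pool.Agent.BallAlg

/-- Two dimensional complex Euclidean space. -/
abbrev E2 := EuclideanSpace ℂ (Fin 2)

/-- The boundary point `(1,0)`. -/
noncomputable abbrev e1 : E2 := EuclideanSpace.single (0 : Fin 2) (1 : ℂ)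

/-- The unit vector orthogonal to `z`. -/
noncomputable def zp (z : E2) : E2 := !₂[conj (z 1), -conj (z 0)]

lemma zp_zero (z : E2) : zp z 0 = conj (z 1) := by simp [zp]
lemma zp_one (z : E2) : zp z 1 = -conj (z 0) := by simp [zp]

lemma norm_sq_E2 (z : E2) : ‖z‖ ^ 2 = ‖z 0‖ ^ 2 + ‖z 1‖ ^ 2 := by
  rw [EuclideanSpace.norm_sq_eq]; simp [Fin.sum_univ_two]

lemma norm_comp_le (z : E2) (i : Fin 2) : ‖z i‖ ≤ ‖z‖ := PiLp.norm_apply_le z i

lemma e1_eq {z : E2} (hz : ‖z‖ = 1) : e1 = conj (z 0) • z + z 1 • zp z := by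
  have h := norm_sq_E2 z
  rw [hz] at h
  have h' : (conj (z 0)) * z 0 + z 1 * conj (z 1) = 1 := by
    rw [← normSq_eq_conj_mul_self, mul_conj, ← ofReal_add, normSq_eq_norm_sq, normSq_eq_norm_sq, ← h]
    simp
  ext i
  fin_cases i
  · simp [zp_zero, h']
  · simp [zp_one]; ring

lemma norm_sq_comb (z : E2) (t : ℝ) (l : ℂ) :
    ‖(t:ℂ) • z + l • zp z‖ ^ 2 = (t ^ 2 + ‖l‖ ^ 2) * ‖z‖ ^ 2 := by
  rw [norm_sq_E2, norm_sq_E2 z]
  simp only [PiLp.add_apply, PiLp.smul_apply, smul_eq_mul, zp_zero, zp_one, ← normSq_eq_norm_sq,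
    normSq_apply]
  simp
  ring

lemma norm_zp (z : E2) : ‖zp z‖ = ‖z‖ := by
  have h := norm_sq_comb z 0 1
  simp at h
  exact h

lemma norm_sq_le_of_sphere {z : E2} (hz : ‖z‖ = 1) : ‖z 1‖ ^ 2 ≤ 2 * ‖1 + z 0‖ := by
  have h := norm_sq_E2 z
  rw [hz] at h
  have h1 : ‖z 0‖ ≤ 1 := by rw [← hz]; exact norm_comp_le z 0
  have h2 : 1 - ‖z 0‖ ≤ ‖1 + z 0‖ := by
    have := norm_sub_norm_le (1:ℂ) (-z 0)
    simpa using this
  nlinarith [norm_nonneg (z 0)]

lemma half_sq_le_re {z : E2} (hz : ‖z‖ ≤ 1) : ‖1 + z 0‖ ^ 2 / 2 ≤ (1 + z 0).re := by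
  have h1 : ‖z 0‖ ^ 2 ≤ 1 := by
    have := norm_comp_le z 0
    have h0 := norm_nonneg (z 0)
    nlinarith
  rw [← normSq_eq_norm_sq, normSq_apply] at *
  simp at *
  nlinarith

lemma fderiv_fderiv_apply {F : E2 → ℂ} {U : Set E2} (hU : IsOpen U) (hF : DifferentiableOn ℂ F U)
    {y : E2} (hy : y ∈ U) (u v : E2) :
    fderiv ℂ (fun w => fderiv ℂ F w v) y u = fderiv ℂ (fderiv ℂ F) y u v := by
  have h2 : ContDiffAt ℂ 2 F y := by
    have := contDiffOn_nat_of_differentiableOn hU hF 2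
    exact_mod_cast this.contDiffAt (hU.mem_nhds hy)
  have h1 : DifferentiableAt ℂ (fderiv ℂ F) y := by
    have : ContDiffAt ℂ 1 (fderiv ℂ F) y := h2.fderiv_right (by norm_num)
    exact this.differentiableAt (by norm_num)
  have h3 : HasFDerivAt (fun w => fderiv ℂ F w v)
      ((ContinuousLinearMap.apply ℂ ℂ v).comp (fderiv ℂ (fderiv ℂ F) y)) y :=
    (ContinuousLinearMap.apply ℂ ℂ v).hasFDerivAt.comp y h1.hasFDerivAt
  rw [h3.fderiv]
  simp

lemma fderiv_fderiv_symm {F : E2 → ℂ} {U : Set E2} (hU : IsOpen U) (hF : DifferentiableOn ℂ F U)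
    {y : E2} (hy : y ∈ U) (u v : E2) :
    fderiv ℂ (fun w => fderiv ℂ F w v) y u = fderiv ℂ (fun w => fderiv ℂ F w u) y v := by
  have h2 : ContDiffAt ℂ 2 F y := by
    have := contDiffOn_nat_of_differentiableOn hU hF 2
    exact_mod_cast this.contDiffAt (hU.mem_nhds hy)
  rw [fderiv_fderiv_apply hU hF hy, fderiv_fderiv_apply hU hF hy]
  have := h2.isSymmSndFDerivAt (by simp)
  exact this.eq u v

end Pool.Agent.BallAlg
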