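import Mathlib
import Pool.Agent.BallAlg.Local1

set_option autoImplicit false

open Complex Metric Set Filter MeasureTheory Topology
open scoped Real Interval ComplexConjugate

namespace Pool.Agent.BallAlg

/-- The derivative in direction `e1`. -/
noncomputable def G1 (F : E2 → ℂ) (z : E2) : ℂ := fderiv ℂ F z e1

/-- The point on the ray. -/
noncomputable def ray (z : E2) (x : ℝ) : E2 := ((1 - x ^ 4 : ℝ) : ℂ) • z

/-- The localised function. -/
noncomputable def locf (F : E2 → ℂ) (z : E2) : ℂ :=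
  (1 + z 0) ^ 2 * (F z + ∫ x in (0:ℝ)..1, (280 * F (ray z x)
     + (8 * (x:ℂ) ^ 3 + 2240 * (x:ℂ) ^ 4) * G1 F (ray z x)
     + (4 * (x:ℂ) ^ 7 + 896 * (x:ℂ) ^ 8) * G1 (G1 F) (ray z x)))
   + 3000000 * F 0 * (1 + z 0)

lemma differentiableOn_G1 {F : E2 → ℂ} {R : ℝ} (hF : DifferentiableOn ℂ F (ball 0 R)) :
    DifferentiableOn ℂ (G1 F) (ball 0 R) :=
  differentiableOn_fderiv_apply isOpen_ball hF e1

lemma abs_one_sub_pow_le {x : ℝ} (hx : x ∈ Icc (0:ℝ) 1) : |1 - x ^ 4| ≤ 1 := by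
  have h1 : x ^ 4 ≤ 1 := pow_le_one₀ hx.1 hx.2
  have h0 : 0 ≤ x ^ 4 := by positivity
  rw [abs_le]; constructor <;> linarith

lemma ray_mem {z : E2} {R : ℝ} (hz : z ∈ ball (0 : E2) R) {x : ℝ} (hx : x ∈ Icc (0:ℝ) 1) :
    ray z x ∈ ball (0 : E2) R := by
  rw [mem_ball_zero_iff] at *
  rw [ray, norm_smul, norm_real, Real.norm_eq_abs]
  calc |1 - x ^ 4| * ‖z‖ ≤ 1 * ‖z‖ := by
        gcongr; exact abs_one_sub_pow_le hx
    _ = ‖z‖ := one_mul _
    _ < R := hz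

lemma continuous_ray (z : E2) : Continuous (ray z) := by
  unfold ray
  fun_prop

lemma differentiableOn_locf {F : E2 → ℂ} {R : ℝ} (hF : DifferentiableOn ℂ F (ball 0 R)) :
    DifferentiableOn ℂ (locf F) (ball 0 R) := by
  have h1 := differentiableOn_G1 hF
  have h2 := differentiableOn_G1 h1
  have hc : Continuous (fun x : ℝ => 1 - x ^ 4) := by fun_prop
  have hcb : ∀ x ∈ Icc (0:ℝ) 1, |1 - x ^ 4| ≤ 1 := fun x hx => abs_one_sub_pow_le hx
  have i0 : DifferentiableOn ℂ (fun z : E2 => ∫ x in (0:ℝ)..1, (280:ℂ) * F (ray z x)) (ball 0 R) := by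
    have := differentiableOn_integral hF (β := fun _ => (280:ℂ)) (c := fun x => 1 - x ^ 4)
      (by fun_prop) hc hcb
    exact this
  have i1 : DifferentiableOn ℂ (fun z : E2 => ∫ x in (0:ℝ)..1, (8 * (x:ℂ) ^ 3 + 2240 * (x:ℂ) ^ 4) * G1 F (ray z x)) (ball 0 R) := by
    have := differentiableOn_integral h1 (β := fun x => (8 * (x:ℂ) ^ 3 + 2240 * (x:ℂ) ^ 4)) (c := fun x => 1 - x ^ 4)
      (by fun_prop) hc hcb
    exact this
  have i2 : DifferentiableOn ℂ (fun z : E2 => ∫ x in (0:ℝ)..1, (4 * (x:ℂ) ^ 7 + 896 * (x:ℂ) ^ 8) * G1 (G1 F) (ray z x)) (ball 0 R) := by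
    have := differentiableOn_integral h2 (β := fun x => (4 * (x:ℂ) ^ 7 + 896 * (x:ℂ) ^ 8)) (c := fun x => 1 - x ^ 4)
      (by fun_prop) hc hcb
    exact this
  have hz0 : Differentiable ℂ (fun z : E2 => z 0) := by fun_prop
  have key : DifferentiableOn ℂ (fun z : E2 => (1 + z 0) ^ 2 * (F z + ((∫ x in (0:ℝ)..1, (280:ℂ) * F (ray z x))
      + (∫ x in (0:ℝ)..1, (8 * (x:ℂ) ^ 3 + 2240 * (x:ℂ) ^ 4) * G1 F (ray z x))
      + (∫ x in (0:ℝ)..1, (4 * (x:ℂ) ^ 7 + 896 * (x:ℂ) ^ 8) * G1 (G1 F) (ray z x))))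
      + 3000000 * F 0 * (1 + z 0)) (ball 0 R) := by
    fun_prop
  refine key.congr ?_
  intro z hz
  have c0 : ContinuousOn (fun x : ℝ => F (ray z x)) (Icc 0 1) :=
    hF.continuousOn.comp (continuous_ray z).continuousOn (fun x hx => ray_mem hz hx)
  have c1 : ContinuousOn (fun x : ℝ => G1 F (ray z x)) (Icc 0 1) :=
    h1.continuousOn.comp (continuous_ray z).continuousOn (fun x hx => ray_mem hz hx)
  have c2 : ContinuousOn (fun x : ℝ => G1 (G1 F) (ray z x)) (Icc 0 1) :=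
    h2.continuousOn.comp (continuous_ray z).continuousOn (fun x hx => ray_mem hz hx)
  have j0 : IntervalIntegrable (fun x : ℝ => (280:ℂ) * F (ray z x)) volume 0 1 := by
    apply ContinuousOn.intervalIntegrable
    rw [uIcc_of_le zero_le_one]; exact continuousOn_const.mul c0
  have j1 : IntervalIntegrable (fun x : ℝ => (8 * (x:ℂ) ^ 3 + 2240 * (x:ℂ) ^ 4) * G1 F (ray z x)) volume 0 1 := by
    apply ContinuousOn.intervalIntegrable
    rw [uIcc_of_le zero_le_one]; fun_prop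
  have j2 : IntervalIntegrable (fun x : ℝ => (4 * (x:ℂ) ^ 7 + 896 * (x:ℂ) ^ 8) * G1 (G1 F) (ray z x)) volume 0 1 := by
    apply ContinuousOn.intervalIntegrable
    rw [uIcc_of_le zero_le_one]; fun_prop
  simp only [locf]
  rw [intervalIntegral.integral_add (j0.add j1) j2, intervalIntegral.integral_add j0 j1]

lemma hasDerivAt_comp_ray {H : E2 → ℂ} {R : ℝ} (hH : DifferentiableOn ℂ H (ball 0 R)) {z : E2} {x : ℝ}
    (hx : ray z x ∈ ball (0 : E2) R) :
    HasDerivAt (fun x : ℝ => H (ray z x)) (-4 * (x:ℂ) ^ 3 * fderiv ℂ H (ray z x) z) x := by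
  have hd : DifferentiableAt ℂ H (ray z x) := hH.differentiableAt (isOpen_ball.mem_nhds hx)
  have hr : HasDerivAt (ray z) ((-4 * (x:ℂ) ^ 3) • z) x := by
    have h0 : HasDerivAt (fun x : ℝ => (1 - x ^ 4 : ℝ)) (-(4 * x ^ 3)) x := by
      have := (hasDerivAt_pow 4 x).const_sub 1
      simpa using this
    have h1 : HasDerivAt (fun x : ℝ => ((1 - x ^ 4 : ℝ) : ℂ)) ((-(4 * x ^ 3) : ℝ) : ℂ) x := h0.ofReal_comp
    have h2 := h1.smul_const z
    refine h2.congr_deriv ?_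
    push_cast
    ring_nf
  have := (hd.hasFDerivAt.restrictScalars ℝ).comp_hasDerivAt x hr
  refine this.congr_deriv ?_
  simp

lemma disc_mem {z : E2} (hz : ‖z‖ = 1) {x : ℝ} (hx : x ∈ Icc (0:ℝ) 1) {l : ℂ} (hl : ‖l‖ < x ^ 2) :
    ray z x + l • zp z ∈ ball (0 : E2) 1 := by
  rw [mem_ball_zero_iff]
  have h := norm_sq_comb z (1 - x ^ 4) l
  rw [hz] at h
  have h1 : ‖l‖ ^ 2 < (x ^ 2) ^ 2 := by
    have := norm_nonneg l
    nlinarith
  have h2 : x ^ 4 ≤ 1 := pow_le_one₀ hx.1 hx.2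
  have h3 : 0 ≤ x ^ 4 := by positivity
  have h4 : ‖ray z x + l • zp z‖ ^ 2 < 1 := by
    rw [ray, h]
    nlinarith
  have h5 := norm_nonneg (ray z x + l • zp z)
  nlinarith

lemma tangential_bounds {F : E2 → ℂ} {R : ℝ} (hR : 1 < R) (hF : DifferentiableOn ℂ F (ball 0 R))
    (hpos : ∀ z ∈ ball (0:E2) R, 0 < (F z).re) {z : E2} (hz : ‖z‖ = 1) {x : ℝ} (hx : x ∈ Icc (0:ℝ) 1) :
    x ^ 2 * ‖fderiv ℂ F (ray z x) (zp z)‖ ≤ 2 * (F (ray z x)).re ∧
    x ^ 4 * ‖fderiv ℂ (fun w => fderiv ℂ F w (zp z)) (ray z x) (zp z)‖ ≤ 48 * (F (ray z x)).re := by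
  have hzR : z ∈ ball (0:E2) R := by rw [mem_ball_zero_iff, hz]; exact hR
  have hy := ray_mem hzR hx
  have hu := hpos _ hy
  rcases eq_or_lt_of_le hx.1 with h0 | h0
  · rw [← h0] at hu ⊢
    constructor
    · simp; exact hu.le
    · simp; exact hu.le
  have hρ : 0 < x ^ 2 := by positivity
  have hsub : ball (0:E2) 1 ⊆ ball 0 R := ball_subset_ball hR.le
  set φ : ℂ → ℂ := fun l => F (ray z x + l • zp z) with hφ
  have hmem : ∀ l ∈ ball (0:ℂ) (x ^ 2), ray z x + l • zp z ∈ ball (0:E2) R := by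
    intro l hl
    rw [mem_ball_zero_iff] at hl
    exact hsub (disc_mem hz hx hl)
  have hder : ∀ (H : E2 → ℂ), DifferentiableOn ℂ H (ball 0 R) → ∀ l ∈ ball (0:ℂ) (x ^ 2),
      HasDerivAt (fun l : ℂ => H (ray z x + l • zp z)) (fderiv ℂ H (ray z x + l • zp z) (zp z)) l := by
    intro H hH l hl
    have hd : DifferentiableAt ℂ H (ray z x + l • zp z) :=
      hH.differentiableAt (isOpen_ball.mem_nhds (hmem l hl))
    have h1 : HasDerivAt (fun l : ℂ => ray z x + l • zp z) (zp z) l := by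
      have := ((hasDerivAt_id l).smul_const (zp z)).const_add (ray z x)
      simpa using this
    exact hd.hasFDerivAt.comp_hasDerivAt l h1
  have hd1 : DifferentiableOn ℂ φ (ball 0 (x ^ 2)) := fun l hl =>
    (hder F hF l hl).differentiableAt.differentiableWithinAt
  have hp1 : ∀ l ∈ ball (0:ℂ) (x ^ 2), 0 < (φ l).re := fun l hl => hpos _ (hmem l hl)
  have h0m : (0:ℂ) ∈ ball (0:ℂ) (x ^ 2) := mem_ball_self hρ
  have e1 : deriv φ 0 = fderiv ℂ F (ray z x) (zp z) := by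
    have := (hder F hF 0 h0m).deriv
    simpa using this
  have e2 : deriv (deriv φ) 0 = fderiv ℂ (fun w => fderiv ℂ F w (zp z)) (ray z x) (zp z) := by
    have hev : deriv φ =ᶠ[𝓝 0] fun l : ℂ => (fun w => fderiv ℂ F w (zp z)) (ray z x + l • zp z) := by
      filter_upwards [isOpen_ball.mem_nhds h0m] with l hl
      exact (hder F hF l hl).deriv
    rw [hev.deriv_eq]
    have := (hder _ (differentiableOn_fderiv_apply isOpen_ball hF (zp z)) 0 h0m).deriv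
    simpa using this
  have b1 := norm_fderiv_le_of_re_pos hρ hd1 hp1
  have b2 := norm_deriv_deriv_le_of_re_pos hρ hd1 hp1
  rw [← norm_deriv_eq_norm_fderiv, e1] at b1
  rw [e2] at b2
  have e0 : φ 0 = F (ray z x) := by simp [hφ]
  rw [e0] at b1 b2
  refine ⟨b1, ?_⟩
  calc x ^ 4 * ‖fderiv ℂ (fun w => fderiv ℂ F w (zp z)) (ray z x) (zp z)‖
      = (x ^ 2) ^ 2 * ‖fderiv ℂ (fun w => fderiv ℂ F w (zp z)) (ray z x) (zp z)‖ := by ring
    _ ≤ _ := b2

lemma radial_bounds {F : E2 → ℂ} {R : ℝ} (hR : 1 < R) (hF : DifferentiableOn ℂ F (ball 0 R))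
    (hpos : ∀ z ∈ ball (0:E2) R, 0 < (F z).re) (him : (F 0).im = 0) {z : E2} (hz : ‖z‖ = 1)
    {x : ℝ} (hx : x ∈ Icc (0:ℝ) 1) :
    x ^ 4 * ‖F (ray z x)‖ ≤ 2 * (F 0).re := by
  have hF0 : F 0 = ((F 0).re : ℂ) := by
    apply Complex.ext <;> simp [him]
  have h0 := hpos 0 (mem_ball_self (by linarith))
  have hn0 : ‖F 0‖ = (F 0).re := by
    rw [hF0, norm_real, Real.norm_eq_abs]
    simp [abs_of_pos h0]
  rcases eq_or_lt_of_le hx.1 with h | hxpos
  · rw [← h]; simp; exact h0.le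
  have hx4 : x ^ 4 ≤ 1 := pow_le_one₀ hx.1 hx.2
  have hx40 : 0 < x ^ 4 := by positivity
  have hsub : ball (0:E2) 1 ⊆ ball 0 R := ball_subset_ball hR.le
  have hnr : ‖ray z x‖ = 1 - x ^ 4 := by
    rw [ray, norm_smul, hz, norm_real, Real.norm_eq_abs, abs_of_nonneg (by linarith)]
    ring
  have hy : ray z x ∈ ball (0:E2) 1 := by
    rw [mem_ball_zero_iff, hnr]; linarith
  have h1 := norm_sub_le_of_re_pos (hF.mono hsub) (fun w hw => hpos w (hsub hw)) hy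
  rw [dist_zero_right, hnr] at h1
  have h2 : ‖F (ray z x)‖ ≤ ‖F (ray z x) - F 0‖ + ‖F 0‖ := by
    have := norm_add_le (F (ray z x) - F 0) (F 0)
    simpa using this
  rw [hn0] at h2
  have h3 : x ^ 4 * ‖F (ray z x)‖ ≤ x ^ 4 * (‖F (ray z x) - F 0‖ + (F 0).re) := by gcongr
  nlinarith

end Pool.Agent.BallAlg
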