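import Mathlib
import Pool.Agent.BallAlg.Local2

set_option autoImplicit false

open Complex Metric Set Filter MeasureTheory Topology
open scoped Real Interval ComplexConjugate

namespace Pool.Agent.BallAlg

lemma G1_eq {F : E2 → ℂ} (z y : E2) (hz : ‖z‖ = 1) :
    G1 F y = conj (z 0) * fderiv ℂ F y z + z 1 * fderiv ℂ F y (zp z) := by
  rw [G1, e1_eq hz]
  simp

lemma G11_eq {F : E2 → ℂ} {R : ℝ} (hF : DifferentiableOn ℂ F (ball 0 R)) (z y : E2) (hz : ‖z‖ = 1)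
    (hy : y ∈ ball (0:E2) R) :
    G1 (G1 F) y = conj (z 0) ^ 2 * fderiv ℂ (fun w => fderiv ℂ F w z) y z
      + 2 * conj (z 0) * z 1 * fderiv ℂ (fun w => fderiv ℂ F w (zp z)) y z
      + z 1 ^ 2 * fderiv ℂ (fun w => fderiv ℂ F w (zp z)) y (zp z) := by
  have hd1 : DifferentiableAt ℂ (fun w => fderiv ℂ F w z) y :=
    (differentiableOn_fderiv_apply isOpen_ball hF z).differentiableAt (isOpen_ball.mem_nhds hy)
  have hd2 : DifferentiableAt ℂ (fun w => fderiv ℂ F w (zp z)) y :=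
    (differentiableOn_fderiv_apply isOpen_ball hF (zp z)).differentiableAt (isOpen_ball.mem_nhds hy)
  have hG : G1 F = fun w => conj (z 0) * fderiv ℂ F w z + z 1 * fderiv ℂ F w (zp z) := by
    funext w; exact G1_eq z w hz
  have hsymm := fderiv_fderiv_symm isOpen_ball hF hy (zp z) z
  rw [G1_eq z y hz, hG]
  have h1 : fderiv ℂ (fun w => conj (z 0) * fderiv ℂ F w z + z 1 * fderiv ℂ F w (zp z)) y
      = conj (z 0) • fderiv ℂ (fun w => fderiv ℂ F w z) y
        + z 1 • fderiv ℂ (fun w => fderiv ℂ F w (zp z)) y := by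
    rw [fderiv_fun_add (hd1.const_mul _) (hd2.const_mul _), fderiv_const_mul hd1, fderiv_const_mul hd2]
  rw [h1]
  simp only [_root_.add_apply, _root_.smul_apply, smul_eq_mul]
  rw [hsymm]
  ring

/-- The two key properties of the localised function on the sphere. -/
theorem locf_estimate {F : E2 → ℂ} {R : ℝ} (hR : 1 < R) (hF : DifferentiableOn ℂ F (ball 0 R))
    (hpos : ∀ z ∈ ball (0:E2) R, 0 < (F z).re) (him : (F 0).im = 0) {z : E2} (hz : ‖z‖ = 1) :
    ‖1 + z 0‖ ^ 4 * (F z).re ≤ (locf F z).re ∧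
    ‖locf F z‖ ≤ ‖1 + z 0‖ ^ 4 * ‖F z‖ + 523 * ‖1 + z 0‖ ^ 4 * (∫ x in (0:ℝ)..1, ‖F (ray z x)‖)
      + 6000000 * (F 0).re * ‖1 + z 0‖ := by
  have hzR : z ∈ ball (0:E2) R := by rw [mem_ball_zero_iff, hz]; exact hR
  have hmem : ∀ x ∈ Icc (0:ℝ) 1, ray z x ∈ ball (0:E2) R := fun x hx => ray_mem hzR hx
  have h0R : (0:E2) ∈ ball (0:E2) R := mem_ball_self (by linarith)
  have h01 : (0:E2) ∈ ball (0:E2) 1 := mem_ball_self (by linarith)
  have hε := hpos 0 h0R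
  set ε : ℝ := (F 0).re with hεdef
  have hF0 : F 0 = (ε : ℂ) := by
    apply Complex.ext <;> simp [him, hεdef]
  set c : ℂ := conj (z 0) with hc
  set d : ℂ := z 1 with hd
  have hsub : ball (0:E2) 1 ⊆ ball 0 R := ball_subset_ball hR.le
  -- the derivative fields
  have hFz := differentiableOn_fderiv_apply isOpen_ball hF z
  have hFzp := differentiableOn_fderiv_apply isOpen_ball hF (zp z)
  have hFzz := differentiableOn_fderiv_apply isOpen_ball hFz z
  have hFzpz := differentiableOn_fderiv_apply isOpen_ball hFzp z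
  have hFzpzp := differentiableOn_fderiv_apply isOpen_ball hFzp (zp z)
  set g : ℝ → ℂ := fun x => F (ray z x) with hgdef
  set P : ℝ → ℂ := fun x => fderiv ℂ F (ray z x) z with hPdef
  set L : ℝ → ℂ := fun x => fderiv ℂ F (ray z x) (zp z) with hLdef
  set A : ℝ → ℂ := fun x => fderiv ℂ (fun w => fderiv ℂ F w z) (ray z x) z with hAdef
  set B : ℝ → ℂ := fun x => fderiv ℂ (fun w => fderiv ℂ F w (zp z)) (ray z x) z with hBdef
  set Q : ℝ → ℂ := fun x => fderiv ℂ (fun w => fderiv ℂ F w (zp z)) (ray z x) (zp z) with hQdef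
  have hcont : ∀ H : E2 → ℂ, DifferentiableOn ℂ H (ball 0 R) →
      ContinuousOn (fun x : ℝ => H (ray z x)) (Icc 0 1) := fun H hH =>
    hH.continuousOn.comp (continuous_ray z).continuousOn (fun x hx => hmem x hx)
  have hg : ∀ x ∈ Icc (0:ℝ) 1, HasDerivAt g (-4 * (x:ℂ) ^ 3 * P x) x :=
    fun x hx => hasDerivAt_comp_ray hF (hmem x hx)
  have hP : ∀ x ∈ Icc (0:ℝ) 1, HasDerivAt P (-4 * (x:ℂ) ^ 3 * A x) x :=
    fun x hx => hasDerivAt_comp_ray hFz (hmem x hx)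
  have hL : ∀ x ∈ Icc (0:ℝ) 1, HasDerivAt L (-4 * (x:ℂ) ^ 3 * B x) x :=
    fun x hx => hasDerivAt_comp_ray hFzp (hmem x hx)
  have hA : ContinuousOn A (Icc 0 1) := hcont _ hFzz
  have hB : ContinuousOn B (Icc 0 1) := hcont _ hFzpz
  have hQ : ContinuousOn Q (Icc 0 1) := hcont _ hFzpzp
  have hray1 : ray z 1 = 0 := by simp [ray]
  have hray0 : ray z 0 = z := by simp [ray]
  have hz0 : ‖z 0‖ ≤ 1 := by rw [← hz]; exact norm_comp_le z 0
  have hz1 : ‖z 1‖ ≤ 1 := by rw [← hz]; exact norm_comp_le z 1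
  have hcn : ‖c‖ = ‖z 0‖ := by rw [hc, norm_conj]
  have hcw : ‖1 + c‖ = ‖1 + z 0‖ := by
    rw [hc, ← norm_conj (1 + z 0)]; simp
  have hfd0 : ‖fderiv ℂ F 0‖ ≤ 2 * ε := by
    have := norm_fderiv_le_of_re_pos one_pos (hF.mono hsub) (fun w hw => hpos w (hsub hw))
    simpa using this
  have key := oneD_estimate (g := g) (P := P) (L := L) (A := A) (B := B) (Q := Q) (c := c) (d := d)
    (ε := ε) hg hP hL hA hB hQ (by rw [hcn]; exact hz0) hz1
    (by rw [hcw]; exact norm_sq_le_of_sphere hz) hε.le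
    (by simp only [hgdef, hray1]; exact hF0)
    (by
      simp only [hPdef, hray1]
      calc ‖fderiv ℂ F 0 z‖ ≤ ‖fderiv ℂ F 0‖ * ‖z‖ := ContinuousLinearMap.le_opNorm _ _
        _ = ‖fderiv ℂ F 0‖ := by rw [hz, mul_one]
        _ ≤ 2 * ε := hfd0)
    (by
      simp only [hLdef, hray1]
      calc ‖fderiv ℂ F 0 (zp z)‖ ≤ ‖fderiv ℂ F 0‖ * ‖zp z‖ := ContinuousLinearMap.le_opNorm _ _
        _ = ‖fderiv ℂ F 0‖ := by rw [norm_zp, hz, mul_one]
        _ ≤ 2 * ε := hfd0)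
    (fun x hx => (hpos _ (hmem x hx)).le)
    (fun x hx => by
      have h1 := radial_bounds hR hF hpos him hz hx
      have h2 : x ^ 4 * (g x).re ≤ x ^ 4 * ‖F (ray z x)‖ :=
        mul_le_mul_of_nonneg_left (re_le_norm _) (pow_nonneg hx.1 4)
      exact h2.trans h1)
    (fun x hx => (tangential_bounds hR hF hpos hz hx).1)
    (fun x hx => (tangential_bounds hR hF hpos hz hx).2)
  -- rewrite the integral in `locf`
  have hint : (∫ x in (0:ℝ)..1, (280 * F (ray z x)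
     + (8 * (x:ℂ) ^ 3 + 2240 * (x:ℂ) ^ 4) * G1 F (ray z x)
     + (4 * (x:ℂ) ^ 7 + 896 * (x:ℂ) ^ 8) * G1 (G1 F) (ray z x)))
     = ∫ x in (0:ℝ)..1, (280 * g x + (8 * (x:ℂ) ^ 3 + 2240 * (x:ℂ) ^ 4) * (c * P x + d * L x)
        + (4 * (x:ℂ) ^ 7 + 896 * (x:ℂ) ^ 8) * (c ^ 2 * A x + 2 * c * d * B x + d ^ 2 * Q x)) := by
    apply intervalIntegral.integral_congr
    intro x hx
    rw [uIcc_of_le zero_le_one] at hx
    simp only
    rw [G1_eq z _ hz, G11_eq hF z _ hz (hmem x hx)]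
  set I : ℂ := ∫ x in (0:ℝ)..1, (280 * g x + (8 * (x:ℂ) ^ 3 + 2240 * (x:ℂ) ^ 4) * (c * P x + d * L x)
        + (4 * (x:ℂ) ^ 7 + 896 * (x:ℂ) ^ 8) * (c ^ 2 * A x + 2 * c * d * B x + d ^ 2 * Q x)) with hI
  set J : ℂ := ∫ x in (0:ℝ)..1, g x with hJ
  have hg0 : g 0 = F z := by simp only [hgdef, hray0]
  rw [hg0] at key
  have hgc : ContinuousOn g (Icc 0 1) := hcont _ hF
  have hgint : IntervalIntegrable g volume 0 1 := by
    apply ContinuousOn.intervalIntegrable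
    rwa [uIcc_of_le zero_le_one]
  have hgnint : IntervalIntegrable (fun x => ‖g x‖) volume 0 1 := by
    apply ContinuousOn.intervalIntegrable
    rw [uIcc_of_le zero_le_one]; fun_prop
  have hgrint : IntervalIntegrable (fun x => (g x).re) volume 0 1 := by
    apply ContinuousOn.intervalIntegrable
    rw [uIcc_of_le zero_le_one]; exact continuous_re.comp_continuousOn hgc
  set X : ℝ := ∫ x in (0:ℝ)..1, (g x).re with hX
  set Y : ℝ := ∫ x in (0:ℝ)..1, ‖g x‖ with hY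
  have hJre : J.re = X := by
    rw [hJ, hX]
    have := (Complex.reCLM.intervalIntegral_comp_comm hgint)
    simpa using this.symm
  have hX0 : 0 ≤ X := by
    rw [hX]
    apply intervalIntegral.integral_nonneg zero_le_one
    intro x hx
    exact (hpos _ (hmem x hx)).le
  have hXY : X ≤ Y := by
    apply intervalIntegral.integral_mono_on zero_le_one hgrint hgnint
    intro x _
    exact re_le_norm _
  have hJY : ‖J‖ ≤ Y := intervalIntegral.norm_integral_le_integral_norm zero_le_one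
  set w : ℝ := ‖1 + z 0‖ with hw
  have hw0 : 0 ≤ w := norm_nonneg _
  have hw2 : w ≤ 2 := by
    calc ‖1 + z 0‖ ≤ ‖(1:ℂ)‖ + ‖z 0‖ := norm_add_le _ _
      _ ≤ 1 + 1 := by rw [norm_one]; gcongr
      _ = 2 := by norm_num
  have hcc : (1 + z 0) * (1 + c) = ((w ^ 2 : ℝ) : ℂ) := by
    have : 1 + c = conj (1 + z 0) := by simp [hc]
    rw [this, mul_conj, normSq_eq_norm_sq, hw]
  have hcc2 : (1 + z 0) ^ 2 * (1 + c) ^ 2 = ((w ^ 4 : ℝ) : ℂ) := by
    rw [← mul_pow, hcc]; push_cast; ring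
  set D : ℂ := F z + I - (1 + c) ^ 2 * F z - 280 * (1 + c) ^ 2 * J with hD
  have hlocf : locf F z = ((w ^ 4 : ℝ) : ℂ) * F z + 280 * ((w ^ 4 : ℝ) : ℂ) * J + (1 + z 0) ^ 2 * D
      + ((3000000 * ε : ℝ) : ℂ) * (1 + z 0) := by
    rw [locf, hint, ← hcc2, hD, hF0]
    push_cast
    ring
  have hDb : ‖(1 + z 0) ^ 2 * D‖ ≤ w ^ 2 * (243 * w ^ 2 * X + 1493537 * ε) := by
    rw [norm_mul, norm_pow]
    rw [hcw] at key
    gcongr
  constructor
  · rw [hlocf]
    have e1 : (((w ^ 4 : ℝ) : ℂ) * F z + 280 * ((w ^ 4 : ℝ) : ℂ) * J + (1 + z 0) ^ 2 * D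
      + ((3000000 * ε : ℝ) : ℂ) * (1 + z 0)).re
      = w ^ 4 * (F z).re + 280 * w ^ 4 * X + ((1 + z 0) ^ 2 * D : ℂ).re + 3000000 * ε * (1 + z 0).re := by
      have t1 : ∀ (a : ℝ) (b : ℂ), ((a : ℂ) * b).re = a * b.re := fun a b => re_ofReal_mul a b
      have t2 : (280:ℂ) * ((w ^ 4 : ℝ) : ℂ) = ((280 * w ^ 4 : ℝ) : ℂ) := by push_cast; ring
      rw [t2, add_re, add_re, add_re, t1, t1, t1, hJre]
    rw [e1]
    have h2 : -(w ^ 2 * (243 * w ^ 2 * X + 1493537 * ε)) ≤ ((1 + z 0) ^ 2 * D : ℂ).re := by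
      have := (abs_le.1 (abs_re_le_norm ((1 + z 0) ^ 2 * D))).1
      linarith
    have h3 := half_sq_le_re hz.le
    rw [← hw] at h3
    have h4 : 3000000 * ε * (w ^ 2 / 2) ≤ 3000000 * ε * (1 + z 0).re := by gcongr
    have h5 : 0 ≤ w ^ 4 * X := by positivity
    have h6 : 0 ≤ w ^ 2 * ε := by positivity
    nlinarith
  · rw [hlocf]
    have n1 : ‖((w ^ 4 : ℝ) : ℂ) * F z‖ = w ^ 4 * ‖F z‖ := by
      rw [norm_mul, norm_real, Real.norm_eq_abs, abs_of_nonneg (by positivity)]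
    have n2 : ‖280 * ((w ^ 4 : ℝ) : ℂ) * J‖ ≤ 280 * w ^ 4 * Y := by
      rw [norm_mul, norm_mul, norm_real, Real.norm_eq_abs, abs_of_nonneg (by positivity)]
      simp
      gcongr
    have n3 : ‖((3000000 * ε : ℝ) : ℂ) * (1 + z 0)‖ = 3000000 * ε * w := by
      rw [norm_mul, norm_real, Real.norm_eq_abs, abs_of_nonneg (by positivity)]
    have hww : w ^ 2 ≤ 2 * w := by nlinarith
    calc _ ≤ ‖((w ^ 4 : ℝ) : ℂ) * F z‖ + ‖280 * ((w ^ 4 : ℝ) : ℂ) * J‖ + ‖(1 + z 0) ^ 2 * D‖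
          + ‖((3000000 * ε : ℝ) : ℂ) * (1 + z 0)‖ := by
            refine (norm_add_le _ _).trans ?_
            gcongr
            exact norm_add₃_le
      _ ≤ w ^ 4 * ‖F z‖ + 280 * w ^ 4 * Y + w ^ 2 * (243 * w ^ 2 * Y + 1493537 * ε)
          + 3000000 * ε * w := by
            rw [n1, n3]
            gcongr
            refine hDb.trans ?_
            gcongr
      _ = w ^ 4 * ‖F z‖ + 523 * w ^ 4 * Y + 1493537 * (w ^ 2 * ε) + 3000000 * ε * w := by ring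
      _ ≤ w ^ 4 * ‖F z‖ + 523 * w ^ 4 * Y + 1493537 * (2 * w * ε) + 3000000 * ε * w := by gcongr
      _ ≤ w ^ 4 * ‖F z‖ + 523 * w ^ 4 * Y + 6000000 * ε * w := by
            have := mul_nonneg hε.le hw0
            linarith

end Pool.Agent.BallAlg
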