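import Mathlib
import Pool.Agent.BallAlg.Local3

set_option autoImplicit false

open Complex Metric Set Filter MeasureTheory Topology
open scoped Real Interval ComplexConjugate

namespace Pool.Agent.BallAlg

/-- The automorphism of the ball. -/
noncomputable def gA (a : ℝ) (z : E2) : E2 :=
  !₂[(z 0 - a) / (1 - a * z 0), (Real.sqrt (1 - a ^ 2) : ℂ) * z 1 / (1 - a * z 0)]

lemma gA_zero (a : ℝ) (z : E2) : gA a z 0 = (z 0 - a) / (1 - a * z 0) := by simp [gA]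
lemma gA_one (a : ℝ) (z : E2) : gA a z 1 = (Real.sqrt (1 - a ^ 2) : ℂ) * z 1 / (1 - a * z 0) := by
  simp [gA]

lemma den_norm_ge {a : ℝ} {z : E2} (hz : ‖z‖ ≤ 1) : 1 - |a| ≤ ‖1 - (a:ℂ) * z 0‖ := by
  have h1 := norm_sub_norm_le (1:ℂ) ((a:ℂ) * z 0)
  have h2 : ‖(a:ℂ) * z 0‖ ≤ |a| := by
    rw [norm_mul, norm_real, Real.norm_eq_abs]
    calc |a| * ‖z 0‖ ≤ |a| * 1 := by
          gcongr; exact (norm_comp_le z 0).trans hz
      _ = |a| := mul_one _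
  rw [norm_one] at h1
  linarith

lemma den_ne {a : ℝ} (ha : |a| < 1) {z : E2} (hz : ‖z‖ ≤ 1) : 1 - (a:ℂ) * z 0 ≠ 0 := by
  have := den_norm_ge (a := a) hz
  rw [← norm_pos_iff]
  linarith

lemma sq_lt_one' {a : ℝ} (ha : |a| < 1) : a ^ 2 < 1 := by
  have := abs_nonneg a
  rw [← sq_abs]; nlinarith

lemma one_sub_norm_sq_gA {a : ℝ} (ha : |a| < 1) {z : E2} (hz : ‖z‖ ≤ 1) :
    (1 - ‖gA a z‖ ^ 2) * ‖1 - (a:ℂ) * z 0‖ ^ 2 = (1 - a ^ 2) * (1 - ‖z‖ ^ 2) := by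
  have hne : ‖1 - (a:ℂ) * z 0‖ ≠ 0 := norm_ne_zero_iff.2 (den_ne ha hz)
  have hne2 : ‖1 - (a:ℂ) * z 0‖ ^ 2 ≠ 0 := pow_ne_zero 2 hne
  have ha2 := sq_lt_one' ha
  have hs : Real.sqrt (1 - a ^ 2) ^ 2 = 1 - a ^ 2 := Real.sq_sqrt (by linarith)
  rw [norm_sq_E2, norm_sq_E2 z, gA_zero, gA_one, norm_div, norm_div, norm_mul, norm_real,
    Real.norm_eq_abs, div_pow, div_pow, mul_pow, sq_abs, hs]
  have e : ‖z 0 - (a:ℂ)‖ ^ 2 + (1 - a ^ 2) * (1 - ‖z 0‖ ^ 2) = ‖1 - (a:ℂ) * z 0‖ ^ 2 := by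
    simp only [← normSq_eq_norm_sq, normSq_apply]
    simp
    ring
  rw [← e] at hne2 ⊢
  generalize ‖z 0 - (a:ℂ)‖ ^ 2 = p at *
  generalize ‖z 0‖ ^ 2 = q at *
  generalize ‖z 1‖ ^ 2 = r at *
  rw [← add_div, one_sub_div hne2, div_mul_cancel₀ _ hne2]
  ring

lemma gA_mem_ball {a : ℝ} (ha : |a| < 1) {z : E2} (hz : ‖z‖ < 1) : ‖gA a z‖ < 1 := by
  have h := one_sub_norm_sq_gA ha hz.le
  have ha2 := sq_lt_one' ha
  have h2 : 0 < ‖1 - (a:ℂ) * z 0‖ := norm_pos_iff.2 (den_ne ha hz.le)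
  have h3 : 0 < (1 - a ^ 2) * (1 - ‖z‖ ^ 2) := by
    have := norm_nonneg z
    apply mul_pos <;> nlinarith
  rw [← h] at h3
  have h4 : 0 < 1 - ‖gA a z‖ ^ 2 := by
    by_contra hc
    push Not at hc
    have : (1 - ‖gA a z‖ ^ 2) * ‖1 - (a:ℂ) * z 0‖ ^ 2 ≤ 0 :=
      mul_nonpos_of_nonpos_of_nonneg hc (by positivity)
    linarith
  have := norm_nonneg (gA a z)
  nlinarith

lemma gA_norm_eq_one {a : ℝ} (ha : |a| < 1) {z : E2} (hz : ‖z‖ = 1) : ‖gA a z‖ = 1 := by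
  have h := one_sub_norm_sq_gA ha hz.le
  have h2 : 0 < ‖1 - (a:ℂ) * z 0‖ := norm_pos_iff.2 (den_ne ha hz.le)
  rw [hz] at h
  have h3 : (1 - ‖gA a z‖ ^ 2) * ‖1 - (a:ℂ) * z 0‖ ^ 2 = 0 := by rw [h]; ring
  rcases mul_eq_zero.1 h3 with h4 | h4
  · have := norm_nonneg (gA a z)
    nlinarith
  · exfalso
    have : 0 < ‖1 - (a:ℂ) * z 0‖ ^ 2 := by positivity
    linarith

lemma gA_norm_le_one {a : ℝ} (ha : |a| < 1) {z : E2} (hz : ‖z‖ ≤ 1) : ‖gA a z‖ ≤ 1 := by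
  rcases hz.lt_or_eq with h | h
  · exact (gA_mem_ball ha h).le
  · exact (gA_norm_eq_one ha h).le

lemma gA_inv {a : ℝ} (ha : |a| < 1) {z : E2} (hz : ‖z‖ ≤ 1) : gA (-a) (gA a z) = z := by
  have hne := den_ne ha hz
  have ha2 := sq_lt_one' ha
  have hs : ((Real.sqrt (1 - a ^ 2) : ℝ) : ℂ) * ((Real.sqrt (1 - a ^ 2) : ℝ) : ℂ) = 1 - (a:ℂ) ^ 2 := by
    rw [← ofReal_mul, Real.mul_self_sqrt (by linarith)]
    push_cast; ring
  have h1 : (1:ℂ) - (a:ℂ) ^ 2 ≠ 0 := by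
    have : (1:ℂ) - (a:ℂ) ^ 2 = ((1 - a ^ 2 : ℝ) : ℂ) := by push_cast; ring
    rw [this, Ne, ofReal_eq_zero]
    linarith
  obtain ⟨D, hD⟩ : ∃ D : ℂ, D = 1 - (a:ℂ) * z 0 := ⟨_, rfl⟩
  rw [← hD] at hne
  have hden : (1:ℂ) - ((-a : ℝ):ℂ) * gA a z 0 = (1 - (a:ℂ) ^ 2) / D := by
    rw [gA_zero, ← hD]
    field_simp
    push_cast
    rw [hD]
    ring
  ext i
  fin_cases i
  · show gA (-a) (gA a z) 0 = z 0
    rw [gA_zero, hden, gA_zero, ← hD]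
    field_simp
    push_cast
    rw [hD]
    ring
  · show gA (-a) (gA a z) 1 = z 1
    rw [gA_one, hden, gA_one, neg_sq, ← hD]
    field_simp
    linear_combination (z 1) * hs

lemma gA_inv' {a : ℝ} (ha : |a| < 1) {z : E2} (hz : ‖z‖ ≤ 1) : gA a (gA (-a) z) = z := by
  have := gA_inv (a := -a) (by rwa [abs_neg]) hz
  rwa [neg_neg] at this

lemma one_add_gA {a : ℝ} (ha : |a| < 1) {z : E2} (hz : ‖z‖ ≤ 1) :
    1 + gA a z 0 = (1 - a) * (1 + z 0) / (1 - a * z 0) := by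
  have hne := den_ne ha hz
  obtain ⟨D, hD⟩ : ∃ D : ℂ, D = 1 - (a:ℂ) * z 0 := ⟨_, rfl⟩
  rw [gA_zero, ← hD]
  rw [← hD] at hne
  field_simp
  rw [hD]
  ring

lemma one_sub_gA_neg {a : ℝ} (ha : |a| < 1) {y : E2} (hy : ‖y‖ ≤ 1) :
    1 - gA (-a) y 0 = (1 - a) * (1 - y 0) / (1 + a * y 0) := by
  have hne := den_ne (a := -a) (by rwa [abs_neg]) hy
  have hne' : 1 + (a:ℂ) * y 0 ≠ 0 := by
    intro h; apply hne; rw [← h]; push_cast; ring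
  rw [gA_zero]
  have : (1:ℂ) - ((-a : ℝ) : ℂ) * y 0 = 1 + a * y 0 := by push_cast; ring
  rw [this]
  obtain ⟨D, hD⟩ : ∃ D : ℂ, D = 1 + (a:ℂ) * y 0 := ⟨_, rfl⟩
  rw [← hD] at hne' ⊢
  field_simp
  push_cast
  rw [hD]
  ring

lemma gA_neg_zero (a : ℝ) : gA (-a) 0 = (a:ℂ) • e1 := by
  ext i
  fin_cases i
  · simp [gA]
  · simp [gA]

lemma differentiableOn_gA (a : ℝ) : DifferentiableOn ℂ (gA a) {z : E2 | 1 - (a:ℂ) * z 0 ≠ 0} := by
  rw [differentiableOn_euclidean]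
  have h0 : ∀ i : Fin 2, DifferentiableOn ℂ (fun z : E2 => z i) {z : E2 | 1 - (a:ℂ) * z 0 ≠ 0} := by
    intro i; fun_prop
  intro i
  fin_cases i
  · have : (fun z : E2 => gA a z 0) = fun z : E2 => (z 0 - a) / (1 - a * z 0) := by
      funext z; exact gA_zero a z
    show DifferentiableOn ℂ (fun z : E2 => gA a z 0) _
    rw [this]
    simp only [div_eq_mul_inv]
    exact ((h0 0).sub_const _).mul ((((h0 0).const_mul _).const_sub _).inv (fun z hz => hz))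
  · have : (fun z : E2 => gA a z 1) = fun z : E2 => (Real.sqrt (1 - a ^ 2) : ℂ) * z 1 / (1 - a * z 0) := by
      funext z; exact gA_one a z
    show DifferentiableOn ℂ (fun z : E2 => gA a z 1) _
    rw [this]
    simp only [div_eq_mul_inv]
    exact ((h0 1).const_mul _).mul ((((h0 0).const_mul _).const_sub _).inv (fun z hz => hz))

lemma differentiableOn_gA_closedBall {a : ℝ} (ha : |a| < 1) :
    DifferentiableOn ℂ (gA a) (closedBall 0 1) :=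
  (differentiableOn_gA a).mono (fun z hz => den_ne ha (by simpa using hz))

lemma continuousOn_gA_closedBall {a : ℝ} (ha : |a| < 1) :
    ContinuousOn (gA a) (closedBall 0 1) := (differentiableOn_gA_closedBall ha).continuousOn

end Pool.Agent.BallAlg
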