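import Mathlib
import Pool.Agent.BallAlg.Local1

set_option autoImplicit false

open Complex Metric Set Filter MeasureTheory Topology
open scoped Real Interval ComplexConjugate

namespace Pool.Agent.BallAlg

/-- Radial retraction onto the closed unit ball. -/
noncomputable def retr (z : E2) : E2 := ((max 1 ‖z‖)⁻¹ : ℝ) • z

lemma retr_eq {z : E2} (hz : ‖z‖ ≤ 1) : retr z = z := by
  simp [retr, max_eq_left hz]

lemma max_pos' (z : E2) : 0 < max 1 ‖z‖ := lt_max_of_lt_left one_pos

lemma norm_retr_le (z : E2) : ‖retr z‖ ≤ 1 := by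
  have h := max_pos' z
  rw [retr, norm_smul, norm_inv, Real.norm_eq_abs, abs_of_pos h, inv_mul_le_iff₀ h, mul_one]
  exact le_max_right _ _

lemma continuous_retr : Continuous retr := by
  unfold retr
  have h : Continuous fun z : E2 => (max 1 ‖z‖)⁻¹ :=
    Continuous.inv₀ (by fun_prop) (fun z => (max_pos' z).ne')
  exact h.smul continuous_id

lemma isSimplyConnected_U : IsSimplyConnected {z : E2 | retr z ≠ e1} := by
  have hne : (e1 : E2) ≠ 0 := by
    intro h
    have := congrArg (fun v : E2 => v 0) h
    simp at this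
  have hst : StarConvex ℝ (0:E2) {z : E2 | retr z ≠ e1} := by
    rw [starConvex_zero_iff]
    intro z hz s hs0 hs1 h
    apply hz
    rcases eq_or_lt_of_le hs0 with h0 | h0
    · exfalso
      rw [← h0, zero_smul] at h
      apply hne
      rw [← h]; simp [retr]
    · -- `e1` has norm one so `‖s • z‖ ≥ 1`
      have hn : ‖retr (s • z)‖ = 1 := by rw [h]; simp
      have hs1' : 1 ≤ ‖s • z‖ := by
        by_contra hc
        push Not at hc
        rw [retr_eq hc.le] at hn
        linarith
      have hz1 : 1 ≤ ‖z‖ := by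
        rw [norm_smul, Real.norm_eq_abs, abs_of_pos h0] at hs1'
        have := norm_nonneg z
        nlinarith
      rw [retr, max_eq_right hs1', smul_smul, norm_smul, Real.norm_eq_abs, abs_of_pos h0] at h
      rw [retr, max_eq_right hz1, ← h]
      congr 1
      field_simp
  have hcs : ContractibleSpace {z : E2 | retr z ≠ e1} :=
    hst.contractibleSpace ⟨0, by
      show retr 0 ≠ e1
      simp only [retr, smul_zero]
      exact hne.symm⟩
  exact SimplyConnectedSpace.ofContractible _

lemma exists_log {f : E2 → ℂ} (hc : ContinuousOn f (closedBall 0 1))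
    (hd : DifferentiableOn ℂ f (ball 0 1))
    (hz : ∀ z ∈ closedBall (0:E2) 1, f z = 0 → z = e1) :
    ∃ F : E2 → ℂ, ContinuousOn F (closedBall 0 1 \ {e1}) ∧ DifferentiableOn ℂ F (ball 0 1) ∧
      ∀ z ∈ closedBall (0:E2) 1 \ {e1}, Complex.exp (-F z) = f z := by
  have hopen : IsOpen {z : E2 | retr z ≠ e1} := isOpen_ne_fun continuous_retr continuous_const
  have hmem : ∀ z : E2, retr z ∈ closedBall (0:E2) 1 := fun z => by
    rw [mem_closedBall_zero_iff]; exact norm_retr_le z
  have hg : Continuous (fun z => f (retr z)) := hc.comp_continuous continuous_retr hmem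
  obtain ⟨φ, hφc, hφ⟩ := Complex.exists_continuousOn_eqOn_exp_comp isSimplyConnected_U hopen
    (g := fun z => f (retr z)) hg.continuousOn (by
      rintro ⟨z, hzU, hz0⟩
      exact hzU (hz _ (hmem z) hz0))
  have hsub : closedBall (0:E2) 1 \ {e1} ⊆ {z : E2 | retr z ≠ e1} := by
    rintro z ⟨hz1, hz2⟩
    rw [mem_closedBall_zero_iff] at hz1
    show retr z ≠ e1
    rw [retr_eq hz1]
    exact hz2
  have hexp : ∀ z ∈ closedBall (0:E2) 1 \ {e1}, Complex.exp (φ z) = f z := by
    intro z hz
    have := hφ (hsub hz)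
    simp only [Function.comp] at this
    rw [this, retr_eq (by simpa using hz.1)]
  have hball : ball (0:E2) 1 ⊆ closedBall (0:E2) 1 \ {e1} := by
    intro z hz
    refine ⟨ball_subset_closedBall hz, ?_⟩
    rintro rfl
    simp at hz
  refine ⟨fun z => -φ z, (hφc.mono hsub).neg, ?_, fun z hz => by rw [neg_neg]; exact hexp z hz⟩
  apply DifferentiableOn.fun_neg
  intro z₀ hz₀
  apply DifferentiableAt.differentiableWithinAt
  have hc0 : ContinuousAt φ z₀ := hφc.continuousAt (hopen.mem_nhds (hsub (hball hz₀)))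
  have hf0 : f z₀ ≠ 0 := by rw [← hexp z₀ (hball hz₀)]; exact Complex.exp_ne_zero _
  have hdf : DifferentiableAt ℂ f z₀ := hd.differentiableAt (isOpen_ball.mem_nhds hz₀)
  have hev : φ =ᶠ[𝓝 z₀] fun z => φ z₀ + Complex.log (f z / f z₀) := by
    have h1 : ∀ᶠ z in 𝓝 z₀, dist (φ z) (φ z₀) < 1 := by
      have := Metric.tendsto_nhds.1 hc0.tendsto 1 one_pos
      exact this
    filter_upwards [h1, isOpen_ball.mem_nhds hz₀] with z hz1 hz2
    have e : f z / f z₀ = Complex.exp (φ z - φ z₀) := by
      rw [Complex.exp_sub, hexp z (hball hz2), hexp z₀ (hball hz₀)]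
    rw [dist_eq_norm] at hz1
    have him : |(φ z - φ z₀).im| < 1 := lt_of_le_of_lt (abs_im_le_norm _) hz1
    rw [abs_lt] at him
    have hpi := Real.pi_gt_three
    rw [e, Complex.log_exp (by linarith [him.1]) (by linarith [him.2])]
    ring
  refine DifferentiableAt.congr_of_eventuallyEq ?_ hev
  apply DifferentiableAt.const_add
  have hdf' : DifferentiableAt ℂ (fun z => f z / f z₀) z₀ := by
    simp only [div_eq_mul_inv]
    exact hdf.mul_const _
  apply DifferentiableAt.clog hdf'
  rw [div_self hf0]
  exact Complex.one_mem_slitPlane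

end Pool.Agent.BallAlg
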