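import Mathlib
import Pool.Agent.BallAlg.Auto
import Pool.Agent.BallAlg.Log

set_option autoImplicit false

open Complex Metric Set Filter MeasureTheory Topology
open scoped Real Interval ComplexConjugate

namespace Pool.Agent.BallAlg

/-- The transported function. -/
noncomputable def Far (F : E2 → ℂ) (a r : ℝ) (y : E2) : ℂ :=
  F (gA (-a) ((r:ℂ) • y)) - ((F ((a:ℂ) • e1)).im : ℂ) * I

lemma norm_e1 : ‖(e1 : E2)‖ = 1 := by simp

lemma norm_smul_e1 {a : ℝ} (ha : 0 ≤ a) : ‖(a:ℂ) • e1‖ = a := by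
  rw [norm_smul, norm_e1, norm_real, Real.norm_eq_abs, abs_of_nonneg ha, mul_one]

lemma smul_mem_ball {r : ℝ} (hr : 0 < r) {y : E2} (hy : y ∈ ball (0:E2) (1 / r)) :
    ‖(r:ℂ) • y‖ < 1 := by
  rw [mem_ball_zero_iff] at hy
  rw [norm_smul, norm_real, Real.norm_eq_abs, abs_of_pos hr]
  calc r * ‖y‖ < r * (1 / r) := by gcongr
    _ = 1 := by field_simp

lemma diff_F_gA {F : E2 → ℂ} (hF : DifferentiableOn ℂ F (ball 0 1)) {a r : ℝ} (ha : |a| < 1)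
    (hr : 0 < r) : DifferentiableOn ℂ (fun y : E2 => F (gA (-a) ((r:ℂ) • y))) (ball 0 (1 / r)) := by
  have ha' : |(-a)| < 1 := by rwa [abs_neg]
  have h1 : DifferentiableOn ℂ (fun y : E2 => gA (-a) ((r:ℂ) • y)) (ball 0 (1 / r)) := by
    apply (differentiableOn_gA_closedBall ha').comp (t := closedBall 0 1)
    · fun_prop
    · intro y hy
      rw [mem_closedBall_zero_iff]
      exact (smul_mem_ball hr hy).le
  apply hF.comp h1
  intro y hy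
  rw [mem_ball_zero_iff]
  exact gA_mem_ball ha' (smul_mem_ball hr hy)

lemma diff_Far {F : E2 → ℂ} (hF : DifferentiableOn ℂ F (ball 0 1)) {a r : ℝ} (ha : |a| < 1)
    (hr : 0 < r) : DifferentiableOn ℂ (Far F a r) (ball 0 (1 / r)) :=
  (diff_F_gA hF ha hr).sub_const _

lemma Far_re (F : E2 → ℂ) (a r : ℝ) (y : E2) : (Far F a r y).re = (F (gA (-a) ((r:ℂ) • y))).re := by
  simp [Far]

lemma Far_re_pos {F : E2 → ℂ} (hpos : ∀ z ∈ ball (0:E2) 1, 0 < (F z).re) {a r : ℝ} (ha : |a| < 1)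
    (hr : 0 < r) {y : E2} (hy : y ∈ ball (0:E2) (1 / r)) : 0 < (Far F a r y).re := by
  rw [Far_re]
  apply hpos
  rw [mem_ball_zero_iff]
  exact gA_mem_ball (by rwa [abs_neg]) (smul_mem_ball hr hy)

lemma Far_zero (F : E2 → ℂ) (a r : ℝ) : Far F a r 0 = ((F ((a:ℂ) • e1)).re : ℂ) := by
  rw [Far, smul_zero, gA_neg_zero]
  apply Complex.ext <;> simp

/-- Bound on the axis. -/
lemma axis_bound {F : E2 → ℂ} (hF : DifferentiableOn ℂ F (ball 0 1))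
    (hpos : ∀ z ∈ ball (0:E2) 1, 0 < (F z).re) {a : ℝ} (ha0 : 0 ≤ a) (ha : a < 1) :
    (1 - a) * ‖F ((a:ℂ) • e1)‖ ≤ 3 * ‖F 0‖ := by
  have hm : ((a:ℂ) • e1 : E2) ∈ ball (0:E2) 1 := by
    rw [mem_ball_zero_iff, norm_smul_e1 ha0]; exact ha
  have h1 := norm_sub_le_of_re_pos hF hpos hm
  rw [dist_zero_right, norm_smul_e1 ha0] at h1
  have h2 : ‖F ((a:ℂ) • e1)‖ ≤ ‖F ((a:ℂ) • e1) - F 0‖ + ‖F 0‖ := by
    have := norm_add_le (F ((a:ℂ) • e1) - F 0) (F 0)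
    simpa using this
  have h3 : (F 0).re ≤ ‖F 0‖ := re_le_norm _
  have h4 := norm_nonneg (F 0)
  have h5 : (1 - a) * ‖F ((a:ℂ) • e1)‖ ≤ (1 - a) * (‖F ((a:ℂ) • e1) - F 0‖ + ‖F 0‖) := by
    apply mul_le_mul_of_nonneg_left h2; linarith
  have h6 : 2 * (F 0).re * a ≤ 2 * ‖F 0‖ * 1 := by
    have : 0 ≤ 2 * ‖F 0‖ := by positivity
    calc 2 * (F 0).re * a ≤ 2 * ‖F 0‖ * a := by gcongr
      _ ≤ 2 * ‖F 0‖ * 1 := by gcongr
  have h7 : (1 - a) * ‖F 0‖ ≤ ‖F 0‖ := by nlinarith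
  nlinarith

/-- Lower bound for the distance to `e1`. -/
lemma dist_lower {a s κ : ℝ} (ha0 : 0 < a) (ha : a < 1) (hs : a ^ 2 ≤ s) (hs1 : s ≤ 1) (hκ : 0 ≤ κ)
    {y : E2} (hy : ‖y‖ = 1) (hω : ‖1 + y 0‖ ≤ 1) (hωκ : ‖1 + y 0‖ ≤ κ * (1 - a)) :
    1 / (κ + 3) ≤ ‖1 - gA (-a) ((s:ℂ) • y) 0‖ := by
  have hs0 : 0 ≤ s := le_trans (sq_nonneg a) hs
  have habs : |a| < 1 := by rwa [abs_of_pos ha0]
  have hy0 : ‖y 0‖ ≤ 1 := by rw [← hy]; exact norm_comp_le y 0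
  have hsy : ‖(s:ℂ) • y‖ ≤ 1 := by
    rw [norm_smul, norm_real, Real.norm_eq_abs, abs_of_nonneg hs0, hy, mul_one]; exact hs1
  rw [one_sub_gA_neg habs hsy, norm_div, norm_mul]
  have h1 : ((s:ℂ) • y) 0 = (s:ℂ) * y 0 := by simp
  rw [h1]
  have hre : (y 0).re ≤ 0 := by
    have h2 : (1 + y 0).re ≤ 1 := (re_le_norm _).trans hω
    simp at h2
    exact h2
  have hnum : 1 ≤ ‖1 - (s:ℂ) * y 0‖ := by
    have h3 : (1 - (s:ℂ) * y 0).re ≤ ‖1 - (s:ℂ) * y 0‖ := re_le_norm _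
    have h4 : (1 - (s:ℂ) * y 0).re = 1 - s * (y 0).re := by simp
    rw [h4] at h3
    nlinarith
  have hden : ‖1 + (a:ℂ) * ((s:ℂ) * y 0)‖ ≤ (κ + 3) * (1 - a) := by
    have e : 1 + (a:ℂ) * ((s:ℂ) * y 0) = (1 + y 0) - ((1 - a * s : ℝ) : ℂ) * y 0 := by
      push_cast; ring
    have has : a * s ≤ 1 := by nlinarith
    have has3 : a ^ 3 ≤ a * s := by nlinarith
    have ha3 : 1 - a ^ 3 ≤ 3 * (1 - a) := by nlinarith [mul_nonneg ha0.le (sub_nonneg.2 ha.le), mul_nonneg (mul_nonneg ha0.le ha0.le) (sub_nonneg.2 ha.le)]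
    rw [e]
    calc ‖(1 + y 0) - ((1 - a * s : ℝ) : ℂ) * y 0‖ ≤ ‖1 + y 0‖ + ‖((1 - a * s : ℝ) : ℂ) * y 0‖ :=
          norm_sub_le _ _
      _ ≤ κ * (1 - a) + (1 - a * s) * 1 := by
          rw [norm_mul, norm_real, Real.norm_eq_abs, abs_of_nonneg (by linarith)]
          have : 0 ≤ 1 - a * s := by linarith
          gcongr
      _ ≤ (κ + 3) * (1 - a) := by nlinarith
  have hden0 : 0 < ‖1 + (a:ℂ) * ((s:ℂ) * y 0)‖ := by
    rw [norm_pos_iff]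
    have := den_ne (a := -a) (by rwa [abs_neg]) hsy
    rw [h1] at this
    intro h; apply this; rw [← h]; push_cast; ring
  have hna : ‖(1:ℂ) - (a:ℂ)‖ = 1 - a := by
    have : (1:ℂ) - (a:ℂ) = ((1 - a : ℝ) : ℂ) := by push_cast; ring
    rw [this, norm_real, Real.norm_eq_abs, abs_of_nonneg (by linarith)]
  rw [hna, div_le_div_iff₀ (by linarith) hden0]
  have h1a : 0 < 1 - a := by linarith
  have h5 : (1 - a) * 1 ≤ (1 - a) * ‖1 - (s:ℂ) * y 0‖ := by gcongr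
  have h6 : 0 ≤ κ + 3 := by linarith
  calc 1 * ‖1 + (a:ℂ) * ((s:ℂ) * y 0)‖ ≤ (κ + 3) * (1 - a) := by rw [one_mul]; exact hden
    _ = (1 - a) * 1 * (κ + 3) := by ring
    _ ≤ (1 - a) * ‖1 - (s:ℂ) * y 0‖ * (κ + 3) := by gcongr

/-- Bound on the whole ray. -/
lemma Far_ray_bound {F : E2 → ℂ} (hF : DifferentiableOn ℂ F (ball 0 1))
    (hpos : ∀ z ∈ ball (0:E2) 1, 0 < (F z).re) {a r κ M : ℝ} (ha0 : 0 < a) (ha : a < 1)
    (hr : a ≤ r) (hr1 : r < 1) (hκ : 0 ≤ κ) (hM0 : 0 ≤ M)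
    (hM : ∀ w ∈ closedBall (0:E2) 1, 1 / (κ + 3) ≤ ‖1 - w 0‖ → ‖F w‖ ≤ M)
    {y : E2} (hy : ‖y‖ = 1) (hω : ‖1 + y 0‖ ≤ 1) (hωκ : ‖1 + y 0‖ ≤ κ * (1 - a))
    {x : ℝ} (hx : x ∈ Icc (0:ℝ) 1) :
    ‖Far F a r (ray y x)‖ ≤ M + (3 * ‖F 0‖ + 2 * (F ((a:ℂ) • e1)).re) / (1 - a) := by
  have h1a : 0 < 1 - a := by linarith
  have habs : |a| < 1 := by rwa [abs_of_pos ha0]
  have hr0 : 0 < r := by linarith
  have hae : ((a:ℂ) • e1 : E2) ∈ ball (0:E2) 1 := by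
    rw [mem_ball_zero_iff, norm_smul_e1 ha0.le]; exact ha
  have hε := hpos _ hae
  have hRr : 1 < 1 / r := by rw [lt_div_iff₀ hr0]; linarith
  by_cases hxa : 1 - x ^ 4 ≤ a
  · -- far from the boundary
    have h1 := radial_bounds hRr (diff_Far hF habs hr0) (fun z hz => Far_re_pos hpos habs hr0 hz)
      (by rw [Far_zero]; simp) hy hx
    rw [Far_zero, ofReal_re] at h1
    have h2 : (1 - a) * ‖Far F a r (ray y x)‖ ≤ 2 * (F ((a:ℂ) • e1)).re := by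
      refine le_trans ?_ h1
      gcongr; linarith
    have h3 : ‖Far F a r (ray y x)‖ ≤ (2 * (F ((a:ℂ) • e1)).re) / (1 - a) := by
      rw [le_div_iff₀ h1a]; linarith
    have h4 : 0 ≤ 3 * ‖F 0‖ / (1 - a) := by positivity
    rw [add_div]
    linarith
  · push Not at hxa
    have hx4 : 0 ≤ x ^ 4 := pow_nonneg hx.1 4
    have hs : a ^ 2 ≤ r * (1 - x ^ 4) := by nlinarith
    have hs1 : r * (1 - x ^ 4) ≤ 1 := by nlinarith
    have e : (r:ℂ) • ray y x = ((r * (1 - x ^ 4) : ℝ) : ℂ) • y := by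
      rw [ray, smul_smul]; push_cast; rfl
    have h1 := dist_lower ha0 ha hs hs1 hκ hy hω hωκ
    rw [← e] at h1
    have hmem : gA (-a) ((r:ℂ) • ray y x) ∈ closedBall (0:E2) 1 := by
      rw [mem_closedBall_zero_iff]
      apply gA_norm_le_one (by rwa [abs_neg])
      rw [e, norm_smul, norm_real, Real.norm_eq_abs, abs_of_nonneg (by nlinarith [sq_nonneg a]), hy, mul_one]
      exact hs1
    have h2 := hM _ hmem h1
    have h3 := axis_bound hF hpos ha0.le ha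
    have h4 : |(F ((a:ℂ) • e1)).im| ≤ ‖F ((a:ℂ) • e1)‖ := abs_im_le_norm _
    have h5 : ‖F ((a:ℂ) • e1)‖ ≤ 3 * ‖F 0‖ / (1 - a) := by
      rw [le_div_iff₀ h1a]; linarith
    have h6 : 0 ≤ 2 * (F ((a:ℂ) • e1)).re / (1 - a) := by positivity
    rw [add_div]
    calc ‖Far F a r (ray y x)‖ ≤ ‖F (gA (-a) ((r:ℂ) • ray y x))‖ + ‖((F ((a:ℂ) • e1)).im : ℂ) * I‖ := by
          rw [Far]; exact norm_sub_le _ _
      _ ≤ M + (3 * ‖F 0‖ / (1 - a)) := by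
          have : ‖((F ((a:ℂ) • e1)).im : ℂ) * I‖ = |(F ((a:ℂ) • e1)).im| := by simp
          rw [this]
          linarith
      _ ≤ _ := by linarith

/-- Bound on the localised function. -/
lemma locf_Far_bound {F : E2 → ℂ} (hF : DifferentiableOn ℂ F (ball 0 1))
    (hpos : ∀ z ∈ ball (0:E2) 1, 0 < (F z).re) {a r κ M : ℝ} (ha0 : 0 < a) (ha : a < 1)
    (hr : a ≤ r) (hr1 : r < 1) (hκ : 0 ≤ κ) (hM0 : 0 ≤ M)
    (hM : ∀ w ∈ closedBall (0:E2) 1, 1 / (κ + 3) ≤ ‖1 - w 0‖ → ‖F w‖ ≤ M)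
    {y : E2} (hy : ‖y‖ = 1) (hω : ‖1 + y 0‖ ≤ 1) (hωκ : ‖1 + y 0‖ ≤ κ * (1 - a)) :
    ‖locf (Far F a r) y‖ ≤ 524 * κ ^ 4 * ((1 - a) ^ 4 * M + (1 - a) ^ 3 * (3 * ‖F 0‖)
      + 2 * (1 - a) ^ 2 * ((F ((a:ℂ) • e1)).re * (1 - a)))
      + 6000000 * κ * ((F ((a:ℂ) • e1)).re * (1 - a)) := by
  have h1a : 0 < 1 - a := by linarith
  have habs : |a| < 1 := by rwa [abs_of_pos ha0]
  have hr0 : 0 < r := by linarith
  have hRr : 1 < 1 / r := by rw [lt_div_iff₀ hr0]; linarith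
  have hae : ((a:ℂ) • e1 : E2) ∈ ball (0:E2) 1 := by
    rw [mem_ball_zero_iff, norm_smul_e1 ha0.le]; exact ha
  have hε := hpos _ hae
  have hest := (locf_estimate hRr (diff_Far hF habs hr0) (fun z hz => Far_re_pos hpos habs hr0 hz)
      (by rw [Far_zero]; simp) hy).2
  rw [Far_zero, ofReal_re] at hest
  set ε : ℝ := (F ((a:ℂ) • e1)).re with hεd
  set T : ℝ := M + (3 * ‖F 0‖ + 2 * ε) / (1 - a) with hT
  have hT0 : 0 ≤ T := by positivity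
  have hb : ∀ x ∈ Icc (0:ℝ) 1, ‖Far F a r (ray y x)‖ ≤ T := fun x hx =>
    Far_ray_bound hF hpos ha0 ha hr hr1 hκ hM0 hM hy hω hωκ hx
  have hb0 : ‖Far F a r y‖ ≤ T := by
    have := hb 0 ⟨le_rfl, zero_le_one⟩
    simpa [ray] using this
  have hyR : y ∈ ball (0:E2) (1 / r) := by rw [mem_ball_zero_iff, hy]; exact hRr
  have hcont : ContinuousOn (fun x : ℝ => ‖Far F a r (ray y x)‖) (Icc 0 1) :=
    ((diff_Far hF habs hr0).continuousOn.comp (continuous_ray y).continuousOn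
      (fun x hx => ray_mem hyR hx)).norm
  have hint : (∫ x in (0:ℝ)..1, ‖Far F a r (ray y x)‖) ≤ T := by
    have h1 : (∫ x in (0:ℝ)..1, ‖Far F a r (ray y x)‖) ≤ ∫ x in (0:ℝ)..1, T := by
      apply intervalIntegral.integral_mono_on zero_le_one
      · apply ContinuousOn.intervalIntegrable
        rwa [uIcc_of_le zero_le_one]
      · simp
      · exact hb
    simpa using h1
  set w : ℝ := ‖1 + y 0‖ with hw
  have hw0 : 0 ≤ w := norm_nonneg _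
  have hw4 : w ^ 4 ≤ (κ * (1 - a)) ^ 4 := by gcongr
  calc ‖locf (Far F a r) y‖ ≤ w ^ 4 * ‖Far F a r y‖ + 523 * w ^ 4 * (∫ x in (0:ℝ)..1, ‖Far F a r (ray y x)‖)
        + 6000000 * ε * w := hest
    _ ≤ w ^ 4 * T + 523 * w ^ 4 * T + 6000000 * ε * w := by gcongr
    _ = 524 * w ^ 4 * T + 6000000 * ε * w := by ring
    _ ≤ 524 * (κ * (1 - a)) ^ 4 * T + 6000000 * ε * (κ * (1 - a)) := by gcongr
    _ = _ := by
      rw [hT]
      field_simp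
      ring

end Pool.Agent.BallAlg
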