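import Mathlib
import Pool.Agent.BallAlg.Final1

set_option autoImplicit false

open Complex Metric Set Filter MeasureTheory Topology
open scoped Real Interval ComplexConjugate

namespace Pool.Agent.BallAlg

lemma dist_e1_sq {z : E2} (hz : ‖z‖ = 1) : ‖z - e1‖ ^ 2 ≤ 2 * ‖1 - z 0‖ := by
  have h := norm_sq_E2 z
  rw [hz] at h
  rw [norm_sq_E2]
  have e0 : (z - e1) 0 = z 0 - 1 := by simp
  have e1' : (z - e1) 1 = z 1 := by simp
  rw [e0, e1']
  have h2 : (1 - z 0).re ≤ ‖1 - z 0‖ := re_le_norm _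
  have h3 : ‖z 0 - 1‖ ^ 2 + ‖z 1‖ ^ 2 = 2 * (1 - z 0).re := by
    have h4 : ‖z 1‖ ^ 2 = 1 - ‖z 0‖ ^ 2 := by linarith
    rw [h4]
    simp only [← normSq_eq_norm_sq, normSq_apply]
    simp
    ring
  rw [h3]; linarith

/-- Continuity of the radial approximation, uniformly on the bad set. -/
lemma exists_r {F : E2 → ℂ} (hFc : ContinuousOn F (closedBall 0 1 \ {e1})) {a θ : ℝ} (ha0 : 0 < a)
    (ha : a < 1) (hθ : 0 < θ) :
    ∃ r, a ≤ r ∧ r < 1 ∧ ∀ y : E2, ‖y‖ = 1 → ‖1 + y 0‖ ≤ 1 →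
      ‖F (gA (-a) ((r:ℂ) • y)) - F (gA (-a) y)‖ ≤ θ := by
  have habs : |(-a)| < 1 := by rw [abs_neg, abs_of_pos ha0]; exact ha
  set K1 : Set E2 := {y : E2 | ‖y‖ = 1 ∧ ‖1 + y 0‖ ≤ 1} with hK1
  have hK1c : IsCompact K1 := by
    have hcl : IsClosed K1 := by
      rw [hK1]
      apply IsClosed.and
      · exact isClosed_eq continuous_norm continuous_const
      · exact isClosed_le (by fun_prop) continuous_const
    apply (isCompact_closedBall (0:E2) 1).of_isClosed_subset hcl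
    intro y hy
    rw [mem_closedBall_zero_iff]; exact hy.1.le
  have hcomp : IsCompact (Icc (0:ℝ) 1 ×ˢ K1) := isCompact_Icc.prod hK1c
  have hcb : ∀ p ∈ Icc (0:ℝ) 1 ×ˢ K1, ‖((p.1:ℂ) • p.2 : E2)‖ ≤ 1 := by
    rintro ⟨s, y⟩ ⟨hs, hy⟩
    rw [norm_smul, norm_real, Real.norm_eq_abs, abs_of_nonneg hs.1, hy.1, mul_one]
    exact hs.2
  have hcont : ContinuousOn (fun p : ℝ × E2 => F (gA (-a) ((p.1:ℂ) • p.2))) (Icc (0:ℝ) 1 ×ˢ K1) := by
    have h1 : ContinuousOn (fun p : ℝ × E2 => gA (-a) ((p.1:ℂ) • p.2)) (Icc (0:ℝ) 1 ×ˢ K1) := by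
      apply (continuousOn_gA_closedBall habs).comp (by fun_prop)
      intro p hp
      rw [mem_closedBall_zero_iff]
      exact hcb p hp
    apply hFc.comp h1
    rintro p hp
    refine ⟨?_, ?_⟩
    · rw [mem_closedBall_zero_iff]
      exact gA_norm_le_one habs (hcb p hp)
    · intro h
      rw [mem_singleton_iff] at h
      simp only at h
      obtain ⟨hs, hy⟩ := hp
      -- apply `gA a`
      have h1 := gA_inv' (a := a) (by rw [abs_of_pos ha0]; exact ha) (hcb p ⟨hs, hy⟩)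
      rw [h] at h1
      have h2 : gA a e1 = e1 := by
        ext i
        fin_cases i
        · show gA a e1 0 = _
          rw [gA_zero]
          have : (1:ℂ) - a ≠ 0 := by
            have : (1:ℂ) - (a:ℂ) = ((1 - a : ℝ) : ℂ) := by push_cast; ring
            rw [this, Ne, ofReal_eq_zero]; linarith
          simp [this]
        · show gA a e1 1 = _
          rw [gA_one]
          simp
      rw [h2] at h1
      have h3 := congrArg (fun v : E2 => v 0) h1
      simp at h3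
      -- `1 = s * y 0`, hence `y 0` real part positive
      have h4 := hy.2
      have h5 : (p.2 0).re ≤ 0 := by
        have h2 : (1 + p.2 0).re ≤ 1 := (re_le_norm _).trans h4
        simp at h2
        exact h2
      have h6 := congrArg Complex.re h3
      simp at h6
      have h7 : p.1 * (p.2 0).re ≤ 0 := mul_nonpos_of_nonneg_of_nonpos hs.1 h5
      linarith
  have huc := hcomp.uniformContinuousOn_of_continuous hcont
  rw [Metric.uniformContinuousOn_iff] at huc
  obtain ⟨δ, hδ, hunif⟩ := huc θ hθ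
  refine ⟨max a (1 - δ / 2), le_max_left _ _, max_lt ha (by linarith), ?_⟩
  intro y hy hω
  set r := max a (1 - δ / 2) with hr
  have hr1 : r < 1 := max_lt ha (by linarith)
  have hra : a ≤ r := le_max_left _ _
  have hrd : 1 - δ / 2 ≤ r := le_max_right _ _
  have h1 : (r, y) ∈ Icc (0:ℝ) 1 ×ˢ K1 := ⟨⟨by linarith, hr1.le⟩, hy, hω⟩
  have h2 : ((1:ℝ), y) ∈ Icc (0:ℝ) 1 ×ˢ K1 := ⟨⟨zero_le_one, le_rfl⟩, hy, hω⟩
  have h3 := hunif _ h1 _ h2 (by
    rw [Prod.dist_eq]
    simp only [dist_self, Real.dist_eq]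
    rw [abs_sub_comm, abs_of_nonneg (by linarith)]
    apply max_lt <;> linarith)
  rw [dist_eq_norm] at h3
  simp only [ofReal_one, one_smul] at h3
  exact h3.le

/-- The core theorem, for `f = exp (-F)`. -/
theorem core {f h F : E2 → ℂ} (hFc : ContinuousOn F (closedBall 0 1 \ {e1}))
    (hF : DifferentiableOn ℂ F (ball 0 1))
    (hFpos : ∀ z ∈ closedBall (0:E2) 1 \ {e1}, 0 < (F z).re)
    (hfF : ∀ z ∈ closedBall (0:E2) 1 \ {e1}, Complex.exp (-F z) = f z)
    (hfc : ContinuousOn f (closedBall 0 1)) (hfd : DifferentiableOn ℂ f (ball 0 1))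
    (hlim : Tendsto (fun a : ℝ => (F ((a:ℂ) • e1)).re * (1 - a)) (𝓝[<] 1) (𝓝 0))
    (hhc : ContinuousOn h (closedBall 0 1)) (hhd : DifferentiableOn ℂ h (ball 0 1))
    (hh0 : h e1 = 0) {η : ℝ} (hη : 0 < η) :
    ∃ g : E2 → ℂ, ContinuousOn g (closedBall 0 1) ∧ DifferentiableOn ℂ g (ball 0 1) ∧
      ∀ z ∈ closedBall (0:E2) 1, ‖h z - g z * f z‖ < η := by
  have hball : ball (0:E2) 1 ⊆ closedBall (0:E2) 1 \ {e1} := by
    intro z hz
    refine ⟨ball_subset_closedBall hz, ?_⟩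
    rintro rfl
    simp at hz
  have hpos : ∀ z ∈ ball (0:E2) 1, 0 < (F z).re := fun z hz => hFpos z (hball hz)
  -- bound for h
  obtain ⟨H, hH⟩ := (isCompact_closedBall (0:E2) 1).exists_bound_of_continuousOn hhc
  have he1m : (e1 : E2) ∈ closedBall (0:E2) 1 := by simp
  have hH0 : 0 ≤ H := (norm_nonneg _).trans (hH e1 he1m)
  -- the radius
  obtain ⟨δ, hδ, hδh⟩ := Metric.continuousWithinAt_iff.1 (hhc e1 he1m) (η / 8) (by positivity)
  set ρ : ℝ := δ ^ 2 / 2 with hρ
  have hρ0 : 0 < ρ := by positivity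
  have hsmall : ∀ z : E2, ‖z‖ = 1 → ‖1 - z 0‖ < ρ → ‖h z‖ ≤ η / 8 := by
    intro z hz hz0
    have h1 := dist_e1_sq hz
    have h2 : ‖z - e1‖ ^ 2 < δ ^ 2 := by
      have : 2 * ‖1 - z 0‖ < δ ^ 2 := by rw [hρ] at hz0; linarith
      linarith
    have h3 : dist z e1 < δ := by
      rw [dist_eq_norm]
      exact lt_of_pow_lt_pow_left₀ 2 hδ.le h2
    have h4 := hδh (by rw [mem_closedBall_zero_iff, hz]) h3
    rw [hh0, dist_zero_right] at h4
    exact h4.le
  set κ : ℝ := 4 / ρ with hκ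
  have hκ0 : 0 < κ := by positivity
  -- bound for F away from e1
  obtain ⟨M, hM0, hM⟩ : ∃ M : ℝ, 0 ≤ M ∧ ∀ w ∈ closedBall (0:E2) 1, 1 / (κ + 3) ≤ ‖1 - w 0‖ → ‖F w‖ ≤ M := by
    have hcK : IsCompact {w : E2 | w ∈ closedBall (0:E2) 1 ∧ 1 / (κ + 3) ≤ ‖1 - w 0‖} := by
      apply (isCompact_closedBall (0:E2) 1).of_isClosed_subset
      · apply IsClosed.and isClosed_closedBall
        exact isClosed_le continuous_const (by fun_prop)
      · intro w hw; exact hw.1
    have hsubK : {w : E2 | w ∈ closedBall (0:E2) 1 ∧ 1 / (κ + 3) ≤ ‖1 - w 0‖} ⊆ closedBall (0:E2) 1 \ {e1} := by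
      rintro w ⟨hw1, hw2⟩
      refine ⟨hw1, ?_⟩
      rintro rfl
      simp at hw2
      linarith
    obtain ⟨M, hM⟩ := hcK.exists_bound_of_continuousOn (hFc.mono hsubK)
    exact ⟨max M 0, le_max_right _ _, fun w hw1 hw2 => (hM w ⟨hw1, hw2⟩).trans (le_max_left _ _)⟩
  set θ : ℝ := min (1 / 4) (η / (8 * (H + 1))) with hθ
  have hθ0 : 0 < θ := by positivity
  have hθ4 : θ ≤ 1 / 4 := min_le_left _ _
  have hθH : 4 * θ * H ≤ η / 2 := by
    have h1 : θ ≤ η / (8 * (H + 1)) := min_le_right _ _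
    have h2 : θ * (8 * (H + 1)) ≤ η := by rwa [le_div_iff₀ (by positivity)] at h1
    nlinarith
  -- choice of a
  obtain ⟨a, ha0, ha, haρ, haB⟩ : ∃ a : ℝ, 1 / 2 < a ∧ a < 1 ∧ 3 * (1 - a) < ρ ∧
      524 * κ ^ 4 * ((1 - a) ^ 4 * M + (1 - a) ^ 3 * (3 * ‖F 0‖)
      + 2 * (1 - a) ^ 2 * ((F ((a:ℂ) • e1)).re * (1 - a)))
      + 6000000 * κ * ((F ((a:ℂ) • e1)).re * (1 - a)) ≤ θ := by
    have t0 : Tendsto (fun a : ℝ => 1 - a) (𝓝[<] 1) (𝓝 0) := by
      have : Tendsto (fun a : ℝ => 1 - a) (𝓝 1) (𝓝 (1 - 1)) := (continuous_const.sub continuous_id).tendsto 1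
      rw [sub_self] at this
      exact this.mono_left nhdsWithin_le_nhds
    have t1 : Tendsto (fun a : ℝ => 524 * κ ^ 4 * ((1 - a) ^ 4 * M + (1 - a) ^ 3 * (3 * ‖F 0‖)
      + 2 * (1 - a) ^ 2 * ((F ((a:ℂ) • e1)).re * (1 - a)))
      + 6000000 * κ * ((F ((a:ℂ) • e1)).re * (1 - a))) (𝓝[<] 1)
      (𝓝 (524 * κ ^ 4 * (0 ^ 4 * M + 0 ^ 3 * (3 * ‖F 0‖) + 2 * 0 ^ 2 * 0) + 6000000 * κ * 0)) := by
      exact ((((((t0.pow 4).mul_const M).add ((t0.pow 3).mul_const _)).add
        (((t0.pow 2).const_mul 2).mul hlim)).const_mul _).add (hlim.const_mul _))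
    have hz0 : 524 * κ ^ 4 * (0 ^ 4 * M + 0 ^ 3 * (3 * ‖F 0‖) + 2 * 0 ^ 2 * 0) + 6000000 * κ * 0 = (0:ℝ) := by
      ring
    rw [hz0] at t1
    have t3 : Tendsto (fun a : ℝ => 3 * (1 - a)) (𝓝[<] 1) (𝓝 0) := by
      simpa using t0.const_mul 3
    have ev1 := t1.eventually_lt_const hθ0
    have ev2 := t3.eventually_lt_const hρ0
    have ev3 : ∀ᶠ a : ℝ in 𝓝[<] 1, 1 / 2 < a :=
      (eventually_gt_nhds (by norm_num : (1/2:ℝ) < 1)).filter_mono nhdsWithin_le_nhds
    have ev4 : ∀ᶠ a : ℝ in 𝓝[<] 1, a < 1 := eventually_mem_nhdsWithin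
    obtain ⟨a, h1, h2, h3, h4⟩ := (ev1.and (ev2.and (ev3.and ev4))).exists
    exact ⟨a, h3, h4, h2, h1.le⟩
  have ha0' : 0 < a := by linarith
  have h1a : 0 < 1 - a := by linarith
  have habs : |a| < 1 := by rwa [abs_of_pos ha0']
  -- choice of r
  obtain ⟨r, hra, hr1, hr⟩ := exists_r hFc ha0' ha hθ0
  have hr0 : 0 < r := by linarith
  have hRr : 1 < 1 / r := by rw [lt_div_iff₀ hr0]; linarith
  -- the function
  set G : E2 → ℂ := fun z => F (gA (-a) ((r:ℂ) • gA a z)) - locf (Far F a r) (gA a z) with hG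
  have hgm : MapsTo (gA a) (closedBall (0:E2) 1) (ball (0:E2) (1 / r)) := by
    intro z hz
    rw [mem_closedBall_zero_iff] at hz
    rw [mem_ball_zero_iff]
    exact (gA_norm_le_one habs hz).trans_lt hRr
  have hGd : DifferentiableOn ℂ G (closedBall 0 1) := by
    apply DifferentiableOn.sub
    · exact (diff_F_gA hF habs hr0).comp (differentiableOn_gA_closedBall habs) hgm
    · exact (differentiableOn_locf (diff_Far hF habs hr0)).comp (differentiableOn_gA_closedBall habs) hgm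
  have hGc : ContinuousOn G (closedBall 0 1) := hGd.continuousOn
  have hEc : ContinuousOn (fun z => h z * Complex.exp (G z)) (closedBall 0 1) :=
    hhc.mul (Complex.continuous_exp.comp_continuousOn hGc)
  have hEd : DifferentiableOn ℂ (fun z => h z * Complex.exp (G z)) (ball 0 1) :=
    hhd.mul ((hGd.mono ball_subset_closedBall).cexp)
  refine ⟨fun z => h z * Complex.exp (G z), hEc, hEd, ?_⟩
  -- estimate on the sphere
  have hsph : ∀ z : E2, ‖z‖ = 1 → ‖h z - h z * Complex.exp (G z) * f z‖ ≤ η / 2 := by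
    intro z hz
    by_cases hze : z = e1
    · rw [hze, hh0]; simp; positivity
    have hzm : z ∈ closedBall (0:E2) 1 \ {e1} := ⟨by rw [mem_closedBall_zero_iff, hz], hze⟩
    have hfz := hfF z hzm
    have hFz := hFpos z hzm
    have hprod : h z - h z * Complex.exp (G z) * f z = h z * (1 - Complex.exp (G z - F z)) := by
      rw [← hfz, sub_eq_add_neg (G z), Complex.exp_add]; ring
    rw [hprod, norm_mul]
    set y : E2 := gA a z with hy
    have hyn : ‖y‖ = 1 := gA_norm_eq_one habs hz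
    have hyz : gA (-a) y = z := gA_inv habs hz.le
    have hyR : y ∈ ball (0:E2) (1 / r) := by rw [mem_ball_zero_iff, hyn]; exact hRr
    have hGz : G z = F (gA (-a) ((r:ℂ) • y)) - locf (Far F a r) y := rfl
    have hest := (locf_estimate hRr (diff_Far hF habs hr0) (fun z hz => Far_re_pos hpos habs hr0 hz)
      (by rw [Far_zero]; simp) hyn).1
    rw [Far_re] at hest
    have hup : 0 < (F (gA (-a) ((r:ℂ) • y))).re := by
      have := Far_re_pos hpos habs hr0 hyR
      rwa [Far_re] at this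
    have hden := den_ne habs hz.le
    have hden0 : 0 < ‖1 - (a:ℂ) * z 0‖ := norm_pos_iff.2 hden
    have hz01 : ‖z 0‖ ≤ 1 := by rw [← hz]; exact norm_comp_le z 0
    have hw : ‖1 + y 0‖ = (1 - a) * ‖1 + z 0‖ / ‖1 - (a:ℂ) * z 0‖ := by
      rw [hy, one_add_gA habs hz.le, norm_div, norm_mul]
      have : (1:ℂ) - (a:ℂ) = ((1 - a : ℝ) : ℂ) := by push_cast; ring
      rw [this, norm_real, Real.norm_eq_abs, abs_of_pos h1a]
    have hz2 : ‖1 + z 0‖ ≤ 2 := by
      calc ‖1 + z 0‖ ≤ ‖(1:ℂ)‖ + ‖z 0‖ := norm_add_le _ _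
        _ ≤ 1 + 1 := by rw [norm_one]; gcongr
        _ = 2 := by norm_num
    have hw2 : ‖1 + y 0‖ * ‖1 - (a:ℂ) * z 0‖ ≤ 2 * (1 - a) := by
      rw [hw, div_mul_cancel₀ _ hden0.ne']
      nlinarith
    rcases le_total 1 ‖1 + y 0‖ with hA | hB
    · -- Case A
      have hre : (G z).re ≤ 0 := by
        rw [hGz, sub_re]
        have h1 : (1:ℝ) ≤ ‖1 + y 0‖ ^ 4 := one_le_pow₀ hA
        nlinarith
      have hexp : ‖Complex.exp (G z - F z)‖ ≤ 1 := by
        rw [Complex.norm_exp, sub_re]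
        apply Real.exp_le_one_iff.2
        linarith
      have hz0 : ‖1 - z 0‖ < ρ := by
        have h1 : ‖1 - (a:ℂ) * z 0‖ ≤ 2 * (1 - a) := by nlinarith
        have h2 : 1 - z 0 = (1 - (a:ℂ) * z 0) - ((1 - a : ℝ) : ℂ) * z 0 := by push_cast; ring
        have h3 : ‖1 - z 0‖ ≤ 2 * (1 - a) + (1 - a) * 1 := by
          rw [h2]
          refine (norm_sub_le _ _).trans ?_
          rw [norm_mul, norm_real, Real.norm_eq_abs, abs_of_pos h1a]
          gcongr
        linarith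
      have hhz := hsmall z hz hz0
      have h4 : ‖1 - Complex.exp (G z - F z)‖ ≤ 2 := by
        refine (norm_sub_le _ _).trans ?_
        rw [norm_one]; linarith
      calc ‖h z‖ * ‖1 - Complex.exp (G z - F z)‖ ≤ (η / 8) * 2 := by gcongr
        _ ≤ η / 2 := by linarith
    · -- Case B
      have hcl := hr y hyn hB
      rw [hyz] at hcl
      by_cases hz0 : ‖1 - z 0‖ < ρ
      · have hhz := hsmall z hz hz0
        have hre : (G z - F z).re ≤ 1 := by
          rw [hGz]
          have h1 : (F (gA (-a) ((r:ℂ) • y)) - F z).re ≤ θ := (re_le_norm _).trans hcl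
          have h2 : 0 ≤ (locf (Far F a r) y).re := by
            refine le_trans ?_ hest
            positivity
          simp only [sub_re] at h1 ⊢
          linarith
        have hexp : ‖Complex.exp (G z - F z)‖ ≤ 3 := by
          rw [Complex.norm_exp]
          calc Real.exp (G z - F z).re ≤ Real.exp 1 := Real.exp_le_exp.2 hre
            _ ≤ 3 := by have := Real.exp_one_lt_d9; linarith
        have h4 : ‖1 - Complex.exp (G z - F z)‖ ≤ 4 := by
          refine (norm_sub_le _ _).trans ?_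
          rw [norm_one]; linarith
        calc ‖h z‖ * ‖1 - Complex.exp (G z - F z)‖ ≤ (η / 8) * 4 := by gcongr
          _ = η / 2 := by ring
      · push Not at hz0
        have hdl : ρ / 2 ≤ ‖1 - (a:ℂ) * z 0‖ := by
          -- real part computation
          have hre0 : (z 0).re ≤ 1 := (re_le_norm _).trans hz01
          have h1 : (a * ‖1 - z 0‖) ^ 2 ≤ ‖1 - (a:ℂ) * z 0‖ ^ 2 := by
            rw [mul_pow, ← normSq_eq_norm_sq, ← normSq_eq_norm_sq, normSq_apply, normSq_apply]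
            simp
            nlinarith [mul_nonneg (mul_nonneg ha0'.le h1a.le) (sub_nonneg.2 hre0), sq_nonneg (1 - a)]
          have h2 : a * ‖1 - z 0‖ ≤ ‖1 - (a:ℂ) * z 0‖ :=
            le_of_sq_le_sq h1 (norm_nonneg _)
          have h3 : 1 / 2 * ρ ≤ a * ‖1 - z 0‖ := by gcongr
          linarith
        have hωκ : ‖1 + y 0‖ ≤ κ * (1 - a) := by
          have h1 : ‖1 + y 0‖ * (ρ / 2) ≤ 2 * (1 - a) := by
            refine le_trans ?_ hw2
            gcongr
          have h2 : ‖1 + y 0‖ * ρ ≤ 4 * (1 - a) := by linarith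
          rw [hκ, div_mul_eq_mul_div, le_div_iff₀ hρ0]
          exact h2
        have hlb := (locf_Far_bound hF hpos ha0' ha hra hr1 hκ0.le hM0 hM hyn hB hωκ).trans haB
        have hGF : ‖G z - F z‖ ≤ 2 * θ := by
          have e : G z - F z = (F (gA (-a) ((r:ℂ) • y)) - F z) - locf (Far F a r) y := by
            rw [hGz]; ring
          rw [e]
          refine (norm_sub_le _ _).trans ?_
          linarith
        have h5 : ‖1 - Complex.exp (G z - F z)‖ ≤ 4 * θ := by
          rw [norm_sub_rev]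
          have := Complex.norm_exp_sub_one_le (x := G z - F z) (by linarith)
          linarith
        calc ‖h z‖ * ‖1 - Complex.exp (G z - F z)‖ ≤ H * (4 * θ) := by
              gcongr; exact hH z hzm.1
          _ ≤ η / 2 := by linarith
  -- maximum principle
  have hmax : ∀ z ∈ closedBall (0:E2) 1, ‖h z - h z * Complex.exp (G z) * f z‖ ≤ η / 2 := by
    intro z hz
    have hdc : DiffContOnCl ℂ (fun z => h z - h z * Complex.exp (G z) * f z) (ball (0:E2) 1) := by
      refine ⟨hhd.sub (hEd.mul hfd), ?_⟩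
      rw [closure_ball (0:E2) one_ne_zero]
      exact hhc.sub (hEc.mul hfc)
    apply Complex.norm_le_of_forall_mem_frontier_norm_le isBounded_ball hdc (C := η / 2)
    · intro w hw
      rw [frontier_ball (0:E2) one_ne_zero, mem_sphere_zero_iff_norm] at hw
      exact hsph w hw
    · rw [closure_ball (0:E2) one_ne_zero]
      exact hz
  intro z hz
  exact (hmax z hz).trans_lt (by linarith)

end Pool.Agent.BallAlg
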